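import Pool.Agent.R313.FN.D
import Pool.Agent.Y753.SHR.R11
import Pool.Agent.Y753.NL.Uni0

set_option autoImplicit false

/-! Local control of zeta near the critical line. -/

namespace Pool.Agent.R313.FN

open Filter MeasureTheory Topology
open Pool.Agent.Y755
open Pool.Agent.Y753.NL
open Pool.Agent.Y753.SHR
open Pool.Agent.W184 (zn zn_nonneg zn_cont zn_le')
open Pool.Agent.H306R2 (aF aF_pos)

/-- bounds on a vertical segment -/
theorem lipK {β : ℝ} (hβ : 0 < β) (B : ℝ) : ∃ κ : ℝ, 0 < κ ∧ ∀ (g : ℂ → ℂ) (U : Set ℂ), IsOpen U →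
    rc (1 / 2) (3 / 2) (B + 1) ⊆ U → DifferentiableOn ℂ g U →
    (∀ s ∈ rc 1 1 B, ‖g s‖ ≤ κ * (∫ w in rc (1 / 2) (3 / 2) (B + 1), ‖g w‖ ^ β) ^ (1 / β)) ∧
    ∀ s ∈ rc 1 1 B, ∀ s' ∈ rc 1 1 B, ‖g s - g s'‖ ≤ κ * (∫ w in rc (1 / 2) (3 / 2) (B + 1), ‖g w‖ ^ β) ^ (1 / β) * ‖s - s'‖ := by
  obtain ⟨C, hC, h⟩ := sup_le_area hβ (a := 3 / 4) (b := 5 / 4) (a' := 1 / 2) (b' := 3 / 2) (B := B + 1 / 2) (B' := B + 1)
    (by norm_num) (by norm_num) (by linarith)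
  refine ⟨4 * C ^ (1 / β), by positivity, fun g U hU hsub hg => ?_⟩
  obtain ⟨I, hI⟩ : ∃ I, I = ∫ w in rc (1 / 2) (3 / 2) (B + 1), ‖g w‖ ^ β := ⟨_, rfl⟩
  have hI0 : 0 ≤ I := by rw [hI]; exact integral_nonneg fun w => by positivity
  rw [← hI]
  have h1 : ∀ s ∈ rc (3 / 4) (5 / 4) (B + 1 / 2), ‖g s‖ ≤ C ^ (1 / β) * I ^ (1 / β) := by
    intro s hs
    have h2 := h g U hU hsub hg s hs
    rw [← hI] at h2
    have h3 : ‖g s‖ = (‖g s‖ ^ β) ^ (1 / β) := by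
      rw [← Real.rpow_mul (norm_nonneg _), mul_one_div_cancel hβ.ne', Real.rpow_one]
    rw [h3, ← Real.mul_rpow hC.le hI0]
    exact Real.rpow_le_rpow (by positivity) h2 (by positivity)
  have hP : 0 ≤ C ^ (1 / β) * I ^ (1 / β) := by positivity
  have hsub1 : ∀ s ∈ rc 1 1 B, Metric.closedBall s (1 / 4) ⊆ rc (3 / 4) (5 / 4) (B + 1 / 2) := by
    intro s hs z hz
    rw [Metric.mem_closedBall, dist_eq_norm] at hz
    have e1 := (Complex.abs_re_le_norm (z - s)).trans hz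
    have e2 := (Complex.abs_im_le_norm (z - s)).trans hz
    rw [Complex.sub_re, abs_le] at e1
    rw [Complex.sub_im, abs_le] at e2
    obtain ⟨s1, s2, s3⟩ := hs
    rw [abs_le] at s3
    refine ⟨by linarith [e1.1], by linarith [e1.2], ?_⟩
    rw [abs_le]
    constructor
    · linarith [e2.1, s3.1]
    · linarith [e2.2, s3.2]
  have hsub2 : rc (3 / 4) (5 / 4) (B + 1 / 2) ⊆ rc (1 / 2) (3 / 2) (B + 1) := by
    rintro z ⟨z1, z2, z3⟩
    exact ⟨by linarith, by linarith, by linarith⟩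
  have hself : ∀ s ∈ rc 1 1 B, s ∈ rc (3 / 4) (5 / 4) (B + 1 / 2) := fun s hs => hsub1 s hs (Metric.mem_closedBall_self (by norm_num))
  have hderiv : ∀ s ∈ rc 1 1 B, ‖deriv g s‖ ≤ 4 * C ^ (1 / β) * I ^ (1 / β) := by
    intro s hs
    have hd : DiffContOnCl ℂ g (Metric.ball s (1 / 4)) := by
      refine DifferentiableOn.diffContOnCl_ball (U := U) hg ?_
      exact (hsub1 s hs).trans (hsub2.trans hsub)
    have h4 := Complex.norm_deriv_le_of_forall_mem_sphere_norm_le (show (0:ℝ) < 1 / 4 by norm_num) hd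
      (fun z hz => h1 z (hsub1 s hs (Metric.sphere_subset_closedBall hz)))
    refine h4.trans (le_of_eq ?_)
    ring
  have hconv : Convex ℝ (rc 1 1 B) := by
    have e1 : rc 1 1 B = {z : ℂ | 1 ≤ z.re} ∩ {z : ℂ | z.re ≤ 1} ∩ {z : ℂ | -B ≤ z.im} ∩ {z : ℂ | z.im ≤ B} := by
      ext z
      simp only [rc, Set.mem_inter_iff, Set.mem_ofPred_eq, abs_le]
      tauto
    rw [e1]
    exact (((convex_halfSpace_re_ge 1).inter (convex_halfSpace_re_le 1)).inter (convex_halfSpace_im_ge (-B))).inter (convex_halfSpace_im_le B)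
  refine ⟨fun s hs => (h1 s (hself s hs)).trans ?_, fun s hs s' hs' => ?_⟩
  · have : 0 ≤ 3 * (C ^ (1 / β) * I ^ (1 / β)) := by positivity
    linarith
  · exact hconv.norm_image_sub_le_of_norm_deriv_le (f := g) (fun z hz => (hg z (hsub (hsub2 (hself z hz)))).differentiableAt
      (hU.mem_nhds (hsub (hsub2 (hself z hz))))) hderiv hs' hs

/-- the zeta function in local coordinates -/
noncomputable def gz (δ t : ℝ) (w : ℂ) : ℂ := riemannZeta (1 / 2 + t * Complex.I + δ * w)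

/-- the domain -/
def UU : Set ℂ := {w | w.re < 4}

lemma UU_open : IsOpen UU := isOpen_lt Complex.continuous_re continuous_const

lemma gz_ne {δ t : ℝ} (hδ : 0 < δ) (hδ1 : δ ≤ 1 / 16) {w : ℂ} (hw : w ∈ UU) : (1 / 2 + t * Complex.I + δ * w : ℂ) ≠ 1 := by
  intro h
  have h1 := congrArg Complex.re h
  simp at h1
  have h2 : w.re < 4 := hw
  nlinarith

lemma gz_diff {δ t : ℝ} (hδ : 0 < δ) (hδ1 : δ ≤ 1 / 16) : DifferentiableOn ℂ (gz δ t) UU := by
  intro w hw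
  refine DifferentiableAt.differentiableWithinAt ?_
  unfold gz
  exact DifferentiableAt.comp (𝕜 := ℂ) (f := fun w : ℂ => (1 / 2 + t * Complex.I + δ * w : ℂ)) w
    (differentiableAt_riemannZeta (gz_ne hδ hδ1 hw)) (by fun_prop)

lemma gz_cont {δ β : ℝ} (hβ : 0 < β) (hδ : 0 < δ) (hδ1 : δ ≤ 1 / 16) :
    ContinuousOn (fun p : ℝ × ℂ => ‖gz δ p.1 p.2‖ ^ β) (Set.univ ×ˢ UU) := by
  refine ContinuousOn.rpow_const (ContinuousOn.norm ?_) fun _ _ => Or.inr hβ.le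
  intro p hp
  refine ContinuousAt.continuousWithinAt ?_
  unfold gz
  exact ContinuousAt.comp (f := fun p : ℝ × ℂ => (1 / 2 + p.1 * Complex.I + δ * p.2 : ℂ))
    (differentiableAt_riemannZeta (gz_ne hδ hδ1 hp.2)).continuousAt (by fun_prop)

lemma rc_UU (B : ℝ) : rc (1 / 2) (3 / 2) B ⊆ UU := by
  rintro w ⟨h1, h2, h3⟩
  show w.re < 4
  linarith

lemma za_gz (δ a t : ℝ) : za δ a t = ‖gz δ t (1 + a * Complex.I)‖ := by
  unfold za gz
  congr 2
  push_cast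
  ring

/-- the area integral -/
noncomputable def Ia (β δ Q t : ℝ) : ℝ := ∫ w in rc (1 / 2) (3 / 2) Q, ‖gz δ t w‖ ^ β

lemma Ia_nonneg (β δ Q t : ℝ) : 0 ≤ Ia β δ Q t := integral_nonneg fun w => by positivity

lemma Ia_fub {β δ Q T : ℝ} (hβ : 0 < β) (hδ : 0 < δ) (hδ1 : δ ≤ 1 / 16) :
    IntegrableOn (Ia β δ Q) (Set.Icc 0 T) ∧
    IntegrableOn (fun w => ∫ t in Set.Icc 0 T, ‖gz δ t w‖ ^ β) (rc (1 / 2) (3 / 2) Q) ∧
    ∫ t in Set.Icc 0 T, Ia β δ Q t = ∫ w in rc (1 / 2) (3 / 2) Q, ∫ t in Set.Icc 0 T, ‖gz δ t w‖ ^ β := by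
  have hK : IsCompact (Set.Icc 0 T ×ˢ rc (1 / 2) (3 / 2) Q) := isCompact_Icc.prod (rc_compact _ _ _)
  have hc : ContinuousOn (fun p : ℝ × ℂ => ‖gz δ p.1 p.2‖ ^ β) (Set.Icc 0 T ×ˢ rc (1 / 2) (3 / 2) Q) :=
    (gz_cont hβ hδ hδ1).mono (Set.prod_mono (Set.subset_univ _) (rc_UU Q))
  have hi := ContinuousOn.integrableOn_compact (μ := volume) hK hc
  rw [IntegrableOn, Measure.volume_eq_prod, ← Measure.prod_restrict] at hi
  exact ⟨hi.integral_prod_left, hi.integral_prod_right, integral_integral_swap hi⟩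

lemma inner_le {β δ Q T : ℝ} (hβ : 0 < β) (hδ : 0 < δ) (hδ1 : δ ≤ 1 / 32) (hQ : Q * δ ≤ 1) (hT : 0 < T) {w : ℂ}
    (hw : w ∈ rc (1 / 2) (3 / 2) Q) :
    ∫ t in Set.Icc 0 T, ‖gz δ t w‖ ^ β ≤ (T + 2) * mom β (1 / 2 + δ * w.re) (-1) (T + 2) := by
  obtain ⟨h1, h2, h3⟩ := hw
  have hre : 0 < δ * w.re := by positivity
  have hre2 : δ * w.re < 1 / 2 := by nlinarith
  have hcont : Continuous fun t => za (δ * w.re) 0 t ^ β :=
    (za_cont hre2 0).rpow_const fun t => Or.inr hβ.le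
  have e1 : ∀ t : ℝ, ‖gz δ t w‖ ^ β = za (δ * w.re) 0 (t + δ * w.im) ^ β := by
    intro t
    unfold gz za
    congr 3
    apply Complex.ext
    · simp
    · simp
  have him : |δ * w.im| ≤ 1 := by
    rw [abs_mul, abs_of_pos hδ]
    nlinarith
  have him' := abs_le.mp him
  simp_rw [e1]
  rw [integral_Icc_eq_integral_Ioc, ← intervalIntegral.integral_of_le hT.le,
    intervalIntegral.integral_comp_add_right (fun t => za (δ * w.re) 0 t ^ β)]
  have e2 : ∫ t in (0 + δ * w.im)..(T + δ * w.im), za (δ * w.re) 0 t ^ β ≤ ∫ t in (-1:ℝ)..(T + 1), za (δ * w.re) 0 t ^ β :=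
    intervalIntegral.integral_mono_interval (by linarith) (by linarith) (by linarith)
      (Eventually.of_forall fun t => Real.rpow_nonneg (za_nonneg _ _ _) _) (hcont.intervalIntegrable _ _)
  refine e2.trans (le_of_eq ?_)
  rw [mom_eq β _ (-1) (show 0 < T + 2 by linarith), ← mul_assoc, mul_inv_cancel₀ (by linarith), one_mul]
  have e5 : T + 2 + -1 = T + 1 := by ring
  rw [e5]
  refine intervalIntegral.integral_congr fun t _ => ?_
  show za (δ * w.re) 0 t ^ β = zn (1 / 2 + δ * w.re) t ^ β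
  congr 1
  unfold za zn
  congr 2
  push_cast
  ring

/-- the expected area integral -/
theorem Ia_mass {β : ℝ} (hβ : 0 < β) (hβ4 : β ≤ 4) (Q : ℝ) {δ : ℝ → ℝ} (hδ : Tendsto δ atTop (𝓝 0))
    (hδL : Tendsto (fun T : ℝ => δ T * Real.log T) atTop atTop) :
    ∃ C : ℝ, ∀ᶠ T in atTop, (2 * δ T) ^ ((β / 2) ^ 2) / T * ∫ t in Set.Icc 0 T, Ia β (δ T) Q t ≤ C := by
  have hpos : ∀ᶠ T in atTop, 0 < δ T := by
    filter_upwards [hδL.eventually_gt_atTop 0, eventually_gt_atTop 1] with T hT hT1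
    exact (pos_iff_pos_of_mul_pos hT).mpr (Real.log_pos hT1)
  have hs0 : 0 < β / 2 := by positivity
  obtain ⟨lam, hlam, hup⟩ := up_full hs0 (by linarith) (ε := 1) one_pos
  obtain ⟨δ0, C0, hδ0, hC0, hDD⟩ := DD_up hs0
  have hL : ∀ᶠ T : ℝ in atTop, lam / Real.log (T + 2) ≤ δ T / 2 := by
    filter_upwards [hδL.eventually_ge_atTop (2 * lam), hpos, eventually_gt_atTop 1] with T h1 h2 h3
    have h4 := Real.log_pos h3
    have h5 : Real.log T ≤ Real.log (T + 2) := Real.log_le_log (by linarith) (by linarith)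
    rw [div_le_iff₀ (h4.trans_le h5)]
    have h6 : δ T * Real.log T ≤ δ T * Real.log (T + 2) := mul_le_mul_of_nonneg_left h5 h2.le
    linarith
  have hup' : ∀ᶠ T : ℝ in atTop, ∀ δ : ℝ, lam / Real.log (T + 2) ≤ δ → δ ≤ 1 / 16 →
      mom (2 * (β / 2)) (1 / 2 + δ) (-1) (T + 2) ≤ (1 + 1) * DD (β / 2) δ :=
    (tendsto_atTop_add_const_right atTop 2 tendsto_id).eventually (hup (-1))
  have hQδ : ∀ᶠ T in atTop, Q * δ T ≤ 1 := by
    have h1 : Tendsto (fun T => Q * δ T) atTop (𝓝 (Q * 0)) := hδ.const_mul Q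
    rw [mul_zero] at h1
    filter_upwards [h1.eventually (gt_mem_nhds one_pos)] with T hT
    exact hT.le
  obtain ⟨V, hV⟩ : ∃ V : ℝ, V = volume.real (rc (1 / 2) (3 / 2) Q) := ⟨_, rfl⟩
  have hV0 : 0 ≤ V := by rw [hV]; exact measureReal_nonneg
  refine ⟨2 ^ ((β / 2) ^ 2) * (3 * (2 * (C0 * 2 ^ ((β / 2) ^ 2)))) * V, ?_⟩
  filter_upwards [hup', hL, hpos, hδ.eventually (gt_mem_nhds (show (0:ℝ) < 1 / 32 by norm_num)),
    hδ.eventually (gt_mem_nhds (show (0:ℝ) < δ0 / 2 by positivity)), hQδ, eventually_gt_atTop 1] with T h1 h2 h3 h4 h5 h6 h7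
  have hT0 : 0 < T := by linarith
  obtain ⟨f1, f2, f3⟩ := Ia_fub (β := β) (δ := δ T) (Q := Q) (T := T) hβ h3 (by linarith)
  rw [f3]
  have hin : ∀ w ∈ rc (1 / 2) (3 / 2) Q, ∫ t in Set.Icc 0 T, ‖gz (δ T) t w‖ ^ β ≤
      (3 * T) * (2 * (C0 * (2 ^ ((β / 2) ^ 2) * (δ T) ^ (-((β / 2) ^ 2))))) := by
    intro w hw
    obtain ⟨w1, w2, w3⟩ := id hw
    refine (inner_le hβ h3 h4.le h6 hT0 hw).trans ?_
    have g1 : lam / Real.log (T + 2) ≤ δ T * w.re := h2.trans (by nlinarith)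
    have g2 : δ T * w.re ≤ 1 / 16 := by nlinarith
    have g3 := h1 _ g1 g2
    have e1 : 2 * (β / 2) = β := by ring
    rw [e1] at g3
    have g0 : 0 < δ T * w.re := by positivity
    have g4 := hDD _ g0 (by nlinarith)
    have g5 : (δ T * w.re) ^ (-((β / 2) ^ 2)) ≤ 2 ^ ((β / 2) ^ 2) * (δ T) ^ (-((β / 2) ^ 2)) := by
      have g6 : (δ T * w.re) ^ (-((β / 2) ^ 2)) ≤ (δ T / 2) ^ (-((β / 2) ^ 2)) :=
        Real.rpow_le_rpow_of_nonpos (by positivity) (by nlinarith) (by have := sq_nonneg (β / 2); linarith)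
      refine g6.trans (le_of_eq ?_)
      rw [Real.div_rpow h3.le (by norm_num), Real.rpow_neg (by norm_num : (0:ℝ) ≤ 2)]
      field_simp
    have g7 : 0 ≤ mom β (1 / 2 + δ T * w.re) (-1) (T + 2) := by
      unfold mom
      exact intervalIntegral.integral_nonneg (by norm_num) fun u _ => by positivity
    have g8 : mom β (1 / 2 + δ T * w.re) (-1) (T + 2) ≤ 2 * (C0 * (2 ^ ((β / 2) ^ 2) * (δ T) ^ (-((β / 2) ^ 2)))) := by
      refine g3.trans ?_
      have g9 : DD (β / 2) (δ T * w.re) ≤ C0 * (2 ^ ((β / 2) ^ 2) * (δ T) ^ (-((β / 2) ^ 2))) :=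
        g4.trans (mul_le_mul_of_nonneg_left g5 hC0.le)
      linarith
    have g10 : T + 2 ≤ 3 * T := by linarith
    calc (T + 2) * mom β (1 / 2 + δ T * w.re) (-1) (T + 2) ≤ (3 * T) * mom β (1 / 2 + δ T * w.re) (-1) (T + 2) :=
          mul_le_mul_of_nonneg_right g10 g7
      _ ≤ _ := mul_le_mul_of_nonneg_left g8 (by positivity)
  have hm : MeasurableSet (rc (1 / 2) (3 / 2) Q) := (rc_compact _ _ _).isClosed.measurableSet
  have hint := setIntegral_mono_on f2 (integrableOn_const (C := (3 * T) * (2 * (C0 * (2 ^ ((β / 2) ^ 2) * (δ T) ^ (-((β / 2) ^ 2))))))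
    (hs := (rc_compact _ _ _).measure_lt_top.ne)) hm hin
  rw [setIntegral_const, smul_eq_mul, ← hV] at hint
  have hw0 : 0 ≤ (2 * δ T) ^ ((β / 2) ^ 2) / T := by positivity
  refine (mul_le_mul_of_nonneg_left hint hw0).trans (le_of_eq ?_)
  rw [Real.mul_rpow (by norm_num) h3.le, Real.rpow_neg h3.le]
  have h9 : (δ T) ^ ((β / 2) ^ 2) ≠ 0 := (Real.rpow_pos_of_pos h3 _).ne'
  field_simp

end Pool.Agent.R313.FN
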