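import Mathlib

set_option autoImplicit false

/-! Laws on the space of continuous functions on the unit interval. -/

namespace Pool.Agent.R313.FN

open MeasureTheory Filter Topology

/-- the space of continuous functions -/
abbrev CI : Type := C(unitInterval, ℝ)

noncomputable instance instMCI : MeasurableSpace CI := borel _

instance instBCI : BorelSpace CI := ⟨rfl⟩

/-- bounded Lipschitz functions -/
def KL (M : ℝ) : Set CI := {f | (∀ x, |f x| ≤ M) ∧ ∀ x y, |f x - f y| ≤ M * dist x y}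

lemma KL_image {M : ℝ} (hM : 0 ≤ M) : (ContinuousMap.toFun '' KL M) =
    {g : unitInterval → ℝ | (∀ x, g x ∈ Set.Icc (-M) M) ∧ ∀ x y, |g x - g y| ≤ M * dist x y} := by
  ext g
  constructor
  · rintro ⟨f, hf, rfl⟩
    exact ⟨fun x => abs_le.mp (hf.1 x), hf.2⟩
  · rintro ⟨h1, h2⟩
    have hc : Continuous g := by
      have : LipschitzWith ⟨M, hM⟩ g := LipschitzWith.of_dist_le_mul fun x y => by
        rw [Real.dist_eq]; exact h2 x y
      exact this.continuous
    exact ⟨⟨g, hc⟩, ⟨fun x => abs_le.mpr (h1 x), h2⟩, rfl⟩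

lemma KL_compact {M : ℝ} (hM : 0 ≤ M) : IsCompact (KL M) := by
  refine ArzelaAscoli.isCompact_of_equicontinuous _ ?_ ?_
  · rw [KL_image hM]
    refine IsCompact.of_isClosed_subset (isCompact_univ_pi fun _ : unitInterval => isCompact_Icc (a := -M) (b := M)) ?_ ?_
    · have e1 : {g : unitInterval → ℝ | (∀ x, g x ∈ Set.Icc (-M) M) ∧ ∀ x y, |g x - g y| ≤ M * dist x y} =
          (⋂ x, {g | g x ∈ Set.Icc (-M) M}) ∩ ⋂ x, ⋂ y, {g | |g x - g y| ≤ M * dist x y} := by
        ext g
        simp only [Set.mem_ofPred_eq, Set.mem_inter_iff, Set.mem_iInter]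
      rw [e1]
      refine (isClosed_iInter fun x => isClosed_Icc.preimage (continuous_apply x)).inter ?_
      exact isClosed_iInter fun x => isClosed_iInter fun y =>
        isClosed_le ((continuous_apply x).sub (continuous_apply y)).abs continuous_const
    · intro g hg x _
      exact hg.1 x
  · refine Metric.equicontinuous_of_continuity_modulus (fun d => M * d) ?_ _ ?_
    · have h1 : Tendsto (fun d : ℝ => M * d) (𝓝 0) (𝓝 (M * 0)) := tendsto_id.const_mul M
      rwa [mul_zero] at h1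
    · rintro x y ⟨f, hf⟩
      rw [Real.dist_eq]
      exact hf.2 x y

lemma tight_KL {μ : ℝ → ProbabilityMeasure CI} {T0 : ℝ} {b : ℝ → ℝ} (hb : Tendsto b atTop (𝓝 0))
    (h : ∀ T, T0 ≤ T → ∀ M : ℝ, 0 < M → (μ T : Measure CI) (KL M)ᶜ ≤ ENNReal.ofReal (b M)) :
    IsCompact (closure (μ '' Set.Ici T0)) := by
  refine isCompact_closure_of_isTightMeasureSet ?_
  rw [isTightMeasureSet_iff_exists_isCompact_measure_compl_le]
  intro ε hε
  obtain ⟨M, hM, hM0⟩ : ∃ M : ℝ, ENNReal.ofReal (b M) ≤ ε ∧ 0 < M := by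
    have h1 : Tendsto (fun r : ℝ => ENNReal.ofReal (b r)) atTop (𝓝 (ENNReal.ofReal 0)) := ENNReal.tendsto_ofReal hb
    rw [ENNReal.ofReal_zero] at h1
    exact (((h1.eventually (gt_mem_nhds hε)).and (eventually_gt_atTop 0)).exists).imp fun r hr => ⟨hr.1.le, hr.2⟩
  refine ⟨KL M, KL_compact hM0.le, ?_⟩
  rintro _ ⟨_, ⟨T, hT, rfl⟩, rfl⟩
  exact (h T hT M hM0).trans hM

/-- the Bernstein polynomial of the values at the nodes -/
noncomputable def bp (n : ℕ) (y : Fin (n + 1) → ℝ) : CI := ∑ k : Fin (n + 1), bernstein n k * ContinuousMap.const _ (y k)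

lemma bp_cont (n : ℕ) : Continuous (bp n) := by
  unfold bp
  refine continuous_finsetSum _ fun k _ => continuous_const.mul ?_
  exact ContinuousMap.continuous_const'.comp (continuous_apply k)

lemma bp_eq (n : ℕ) (f : CI) : bernsteinApproximation n f = bp n (fun k => f (bernstein.z k)) := rfl

lemma ev_cont {n : ℕ} (x : Fin n → unitInterval) : Continuous fun f : CI => fun j => f (x j) :=
  continuous_pi fun j => continuous_eval_const (x j)

lemma ext_fdd {μ ν : Measure CI} [IsProbabilityMeasure μ] [IsProbabilityMeasure ν]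
    (h : ∀ (n : ℕ) (x : Fin n → unitInterval) (G : BoundedContinuousFunction (Fin n → ℝ) ℝ),
      ∫ f, G (fun j => f (x j)) ∂μ = ∫ f, G (fun j => f (x j)) ∂ν) : μ = ν := by
  refine ext_of_forall_integral_eq_of_IsFiniteMeasure fun F => ?_
  have hlim : ∀ (ρ : Measure CI) [IsProbabilityMeasure ρ],
      Tendsto (fun n : ℕ => ∫ f, F (bernsteinApproximation n f) ∂ρ) atTop (𝓝 (∫ f, F f ∂ρ)) := by
    intro ρ _
    refine tendsto_integral_of_dominated_convergence (fun _ => ‖F‖) (fun n => ?_) (integrable_const _)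
      (fun n => Eventually.of_forall fun f => F.norm_coe_le_norm _) (Eventually.of_forall fun f => ?_)
    · simp_rw [bp_eq]
      exact (F.continuous.comp ((bp_cont n).comp (ev_cont _))).aestronglyMeasurable
    · exact (F.continuous.tendsto f).comp (bernsteinApproximation_uniform f)
  refine tendsto_nhds_unique (hlim μ) ((hlim ν).congr fun n => ?_)
  exact (h (n + 1) (fun k => bernstein.z k) (F.compContinuous ⟨bp n, bp_cont n⟩)).symm

/-- convergence in law from compactness and convergence of the finite-dimensional distributions -/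
theorem flim {μ : ℝ → ProbabilityMeasure CI} {S : Set (ProbabilityMeasure CI)} (hS : IsCompact S)
    (hμ : ∀ᶠ T in atTop, μ T ∈ S)
    (hf : ∀ (n : ℕ) (x : Fin n → unitInterval) (G : BoundedContinuousFunction (Fin n → ℝ) ℝ),
      ∃ L : ℝ, Tendsto (fun T => ∫ f, G (fun j => f (x j)) ∂(μ T : Measure CI)) atTop (𝓝 L)) :
    ∃ ν : ProbabilityMeasure CI, Tendsto μ atTop (𝓝 ν) := by
  have hex : ∀ g : Ultrafilter ℝ, (g : Filter ℝ) ≤ atTop → ∃ ρ : ProbabilityMeasure CI, Tendsto μ g (𝓝 ρ) := by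
    intro g hg
    obtain ⟨ρ, -, hρ⟩ := isCompact_iff_ultrafilter_le_nhds.mp hS (g.map μ) (by
      rw [Ultrafilter.coe_map, le_principal_iff, mem_map]
      exact hg hμ)
    exact ⟨ρ, hρ⟩
  have huniq : ∀ (g g' : Ultrafilter ℝ) (ρ ρ' : ProbabilityMeasure CI), (g : Filter ℝ) ≤ atTop → (g' : Filter ℝ) ≤ atTop →
      Tendsto μ g (𝓝 ρ) → Tendsto μ g' (𝓝 ρ') → ρ = ρ' := by
    intro g g' ρ ρ' hg hg' h1 h2
    suffices h3 : (ρ : Measure CI) = (ρ' : Measure CI) from Subtype.ext h3
    refine ext_fdd fun n x G => ?_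
    obtain ⟨L, hL⟩ := hf n x G
    have a1 := (ProbabilityMeasure.tendsto_iff_forall_integral_tendsto.mp h1) (G.compContinuous ⟨_, ev_cont x⟩)
    have a2 := (ProbabilityMeasure.tendsto_iff_forall_integral_tendsto.mp h2) (G.compContinuous ⟨_, ev_cont x⟩)
    have b1 := tendsto_nhds_unique a1 (hL.mono_left hg)
    have b2 := tendsto_nhds_unique a2 (hL.mono_left hg')
    exact b1.trans b2.symm
  obtain ⟨ν, hν⟩ := hex (Ultrafilter.of atTop) (Ultrafilter.of_le atTop)
  refine ⟨ν, ?_⟩
  rw [tendsto_iff_ultrafilter]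
  intro g hg
  obtain ⟨ρ, hρ⟩ := hex g hg
  rw [huniq _ _ _ _ (Ultrafilter.of_le atTop) hg hν hρ]
  exact hρ

end Pool.Agent.R313.FN
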