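import Pool.Agent.R313.FN.A

set_option autoImplicit false

/-! Grids, norms and elementary inequalities. -/

namespace Pool.Agent.R313.FN

open MeasureTheory Filter Topology Finset

/-- the nodes -/
noncomputable def nd (n : ℕ) (k : Fin (n + 1)) : unitInterval := bernstein.z k

lemma nd_coe (n : ℕ) (k : Fin (n + 1)) : ((nd n k : unitInterval) : ℝ) = (k : ℝ) / n := rfl

lemma nd_near {n : ℕ} (hn : n ≠ 0) (x : unitInterval) : ∃ k : Fin (n + 1), dist x (nd n k) ≤ 1 / n := by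
  have hn0 : (0:ℝ) < n := by positivity
  have hx0 : 0 ≤ (x : ℝ) := x.2.1
  have hx1 : (x : ℝ) ≤ 1 := x.2.2
  have h1 : ⌊(n:ℝ) * x⌋₊ ≤ n := by
    refine Nat.floor_le_of_le ?_
    nlinarith
  refine ⟨⟨⌊(n:ℝ) * x⌋₊, Nat.lt_succ_of_le h1⟩, ?_⟩
  have h2 := Nat.floor_le (show 0 ≤ (n:ℝ) * x by positivity)
  have h3 := Nat.lt_floor_add_one ((n:ℝ) * x)
  rw [Subtype.dist_eq, Real.dist_eq, nd_coe]
  simp only
  have h4 : (x : ℝ) - (⌊(n:ℝ) * x⌋₊ : ℝ) / n = ((n:ℝ) * x - ⌊(n:ℝ) * x⌋₊) / n := by field_simp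
  rw [h4, abs_of_nonneg (div_nonneg (by linarith) hn0.le)]
  exact div_le_div_of_nonneg_right (by linarith) hn0.le

lemma norm_le_nd {n : ℕ} (hn : n ≠ 0) {f : CI} {K : ℝ} (hK0 : 0 ≤ K) (hK : ∀ x y, |f x - f y| ≤ K * dist x y) :
    ‖f‖ ≤ ‖fun k => f (nd n k)‖ + K / n := by
  have hn0 : (0:ℝ) < n := by positivity
  rw [ContinuousMap.norm_le _ (by positivity)]
  intro x
  obtain ⟨k, hk⟩ := nd_near hn x
  have h1 : |f x - f (nd n k)| ≤ K / n := by
    refine (hK x (nd n k)).trans ?_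
    rw [div_eq_mul_one_div]
    exact mul_le_mul_of_nonneg_left hk hK0
  have h2 : ‖f (nd n k)‖ ≤ ‖fun k => f (nd n k)‖ := norm_le_pi_norm (fun k => f (nd n k)) k
  rw [Real.norm_eq_abs] at h2 ⊢
  have h3 := abs_add_le (f (nd n k)) (f x - f (nd n k))
  rw [add_sub_cancel] at h3
  linarith

lemma nd_le_norm {n : ℕ} (x : Fin n → unitInterval) (f : CI) : ‖fun k => f (x k)‖ ≤ ‖f‖ := by
  rw [pi_norm_le_iff_of_nonneg (norm_nonneg _)]
  exact fun k => f.norm_coe_le_norm _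

lemma nd_tendsto (f : CI) : Tendsto (fun n : ℕ => ‖fun k => f (nd n k)‖) atTop (𝓝 ‖f‖) := by
  obtain ⟨x, -, hx⟩ := isCompact_univ.exists_isMaxOn (Set.univ_nonempty (α := unitInterval)) (f := fun x => ‖f x‖)
    (f.continuous.norm.continuousOn)
  have hnorm : ‖f‖ = ‖f x‖ := by
    refine le_antisymm ?_ (f.norm_coe_le_norm x)
    rw [ContinuousMap.norm_le _ (norm_nonneg _)]
    exact fun y => hx (Set.mem_univ y)
  have hk : ∀ n : ℕ, ∃ k : Fin (n + 1), n ≠ 0 → dist x (nd n k) ≤ 1 / n := by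
    intro n
    by_cases hn : n = 0
    · exact ⟨0, fun h => absurd hn h⟩
    · obtain ⟨k, hk⟩ := nd_near hn x
      exact ⟨k, fun _ => hk⟩
  choose k hk using hk
  have h1 : Tendsto (fun n : ℕ => nd n (k n)) atTop (𝓝 x) := by
    rw [tendsto_iff_dist_tendsto_zero]
    refine squeeze_zero' (Eventually.of_forall fun n => dist_nonneg) ?_ tendsto_one_div_atTop_nhds_zero_nat
    filter_upwards [eventually_ne_atTop 0] with n hn
    rw [dist_comm]
    exact hk n hn
  have h2 : Tendsto (fun n : ℕ => ‖f (nd n (k n))‖) atTop (𝓝 ‖f‖) := by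
    rw [hnorm]
    exact ((f.continuous.norm.tendsto x).comp h1)
  refine tendsto_of_tendsto_of_tendsto_of_le_of_le h2 tendsto_const_nhds (fun n => ?_) fun n => nd_le_norm _ f
  exact norm_le_pi_norm (fun k => f (nd n k)) (k n)

lemma pow_split {a b ε β : ℝ} (ha : 0 ≤ a) (hb : 0 ≤ b) (hε : 0 < ε) (hβ : 0 < β) :
    (a + b) ^ β ≤ (1 + ε) ^ β * a ^ β + (1 + 1 / ε) ^ β * b ^ β := by
  have h1 : 0 ≤ (1 + ε) ^ β * a ^ β := by positivity
  have h2 : 0 ≤ (1 + 1 / ε) ^ β * b ^ β := by positivity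
  rcases le_or_gt b (ε * a) with h | h
  · have h3 : (a + b) ^ β ≤ ((1 + ε) * a) ^ β := Real.rpow_le_rpow (by positivity) (by linarith) hβ.le
    rw [Real.mul_rpow (by positivity) ha] at h3
    linarith
  · have h4 : a ≤ b / ε := by rw [le_div_iff₀ hε]; linarith
    have h3 : (a + b) ^ β ≤ ((1 + 1 / ε) * b) ^ β := by
      refine Real.rpow_le_rpow (by positivity) ?_ hβ.le
      have : (1 + 1 / ε) * b = b + b / ε := by ring
      linarith
    rw [Real.mul_rpow (by positivity) hb] at h3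
    linarith

lemma pi_pow_le {n : ℕ} {β : ℝ} (hβ : 0 < β) (y : Fin n → ℝ) : ‖y‖ ^ β ≤ ∑ j, |y j| ^ β := by
  have h0 : 0 ≤ ∑ j, |y j| ^ β := sum_nonneg fun j _ => by positivity
  have h1 : ‖y‖ ≤ (∑ j, |y j| ^ β) ^ (1 / β) := by
    rw [pi_norm_le_iff_of_nonneg (by positivity)]
    intro j
    rw [Real.norm_eq_abs]
    have h2 : |y j| = (|y j| ^ β) ^ (1 / β) := by
      rw [← Real.rpow_mul (abs_nonneg _), mul_one_div_cancel hβ.ne', Real.rpow_one]
    rw [h2]
    exact Real.rpow_le_rpow (by positivity) (single_le_sum (f := fun j => |y j| ^ β) (fun i _ => by positivity) (mem_univ j)) (by positivity)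
  calc ‖y‖ ^ β ≤ ((∑ j, |y j| ^ β) ^ (1 / β)) ^ β := Real.rpow_le_rpow (norm_nonneg _) h1 hβ.le
    _ = ∑ j, |y j| ^ β := by rw [← Real.rpow_mul h0, one_div_mul_cancel hβ.ne', Real.rpow_one]

/-- the law of `Y` under the density `p` with respect to `m` -/
noncomputable def wl {E : Type*} [MeasurableSpace E] (p : ℝ → ℝ) (Y : ℝ → E) (m : Measure ℝ) : Measure E :=
  (m.withDensity fun t => ENNReal.ofReal (p t)).map Y

lemma wl_integral {E : Type*} [TopologicalSpace E] [MeasurableSpace E] [BorelSpace E] {p : ℝ → ℝ} {Y : ℝ → E} {m : Measure ℝ} (hp : Measurable p) (h0 : ∀ t, 0 ≤ p t) (hY : Measurable Y)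
    {g : E → ℝ} (hg : Continuous g) : ∫ x, g x ∂(wl p Y m) = ∫ t, p t * g (Y t) ∂m := by
  have hz : Measurable fun t => ENNReal.ofReal (p t) := ENNReal.measurable_ofReal.comp hp
  unfold wl
  rw [integral_map hY.aemeasurable hg.measurable.aestronglyMeasurable,
    integral_withDensity_eq_integral_toReal_smul hz
      (Eventually.of_forall fun _ => ENNReal.ofReal_lt_top)]
  refine integral_congr_ae (Eventually.of_forall fun t => ?_)
  show (ENNReal.ofReal (p t)).toReal • g (Y t) = p t * g (Y t)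
  rw [ENNReal.toReal_ofReal (h0 t), smul_eq_mul]

lemma wl_prob {E : Type*} [MeasurableSpace E] {p : ℝ → ℝ} {Y : ℝ → E} {m : Measure ℝ} (h0 : ∀ t, 0 ≤ p t) (hi : Integrable p m) (hY : Measurable Y)
    (h1 : ∫ t, p t ∂m = 1) : IsProbabilityMeasure (wl p Y m) := by
  constructor
  unfold wl
  rw [Measure.map_apply hY MeasurableSet.univ, Set.preimage_univ, withDensity_apply _ MeasurableSet.univ,
    Measure.restrict_univ, ← ofReal_integral_eq_lintegral_ofReal hi (Eventually.of_forall h0), h1, ENNReal.ofReal_one]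

lemma wl_le {E : Type*} [MeasurableSpace E] {p h : ℝ → ℝ} {Y : ℝ → E} {m : Measure ℝ} {A : Set E} (hA : MeasurableSet A) (hY : Measurable Y)
    (hi : Integrable h m) (h0 : ∀ t, 0 ≤ h t) (hph : ∀ᵐ t ∂m, Y t ∈ A → p t ≤ h t) : wl p Y m A ≤ ENNReal.ofReal (∫ t, h t ∂m) := by
  unfold wl
  rw [Measure.map_apply hY hA, withDensity_apply _ (hY hA), ofReal_integral_eq_lintegral_ofReal hi (Eventually.of_forall h0),
    ← lintegral_indicator (hY hA)]
  refine lintegral_mono_ae ?_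
  filter_upwards [hph] with t ht
  by_cases h1 : t ∈ Y ⁻¹' A
  · rw [Set.indicator_of_mem h1]
    exact ENNReal.ofReal_le_ofReal (ht h1)
  · rw [Set.indicator_of_notMem h1]
    exact zero_le

end Pool.Agent.R313.FN
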