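import Pool.Agent.R313.FN.B
import Pool.Agent.R313.SH.Unb

set_option autoImplicit false

/-! The functional limit theorem. -/

namespace Pool.Agent.R313.FN

open MeasureTheory Filter Topology Finset
open Pool.Agent.R313.SH (unb2)

/-- the weight of growth -/
noncomputable def gs (β : ℝ) (f : CI) : ℝ := 1 + ‖f‖ ^ β

lemma gs_cont {β : ℝ} (hβ : 0 < β) : Continuous (gs β) := by
  unfold gs
  exact continuous_const.add (continuous_norm.rpow_const fun f => Or.inr hβ.le)

theorem fmain {z : ℝ → ℝ → CI} {z0 K : ℝ → ℝ → ℝ} {w : ℝ → ℝ} {ms : ℝ → Measure ℝ} {β c C : ℝ} (hβ : 0 < β) (hc : 0 < c)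
    (hw : ∀ᶠ T in atTop, 0 ≤ w T) (hz : ∀ᶠ T in atTop, Measurable (z T))
    (hz0 : ∀ᶠ T in atTop, Measurable (z0 T) ∧ ∀ t, 0 ≤ z0 T t)
    (hpos : ∀ᶠ T in atTop, ∀ᵐ t ∂(ms T), 0 < z0 T t)
    (hK : ∀ᶠ T in atTop, (∀ᵐ t ∂(ms T), (∀ x, |z T t x| ≤ K T t) ∧ ∀ x y, |z T t x - z T t y| ≤ K T t * dist x y) ∧
      (∀ t, 0 ≤ K T t) ∧ Integrable (fun t => K T t ^ β) (ms T) ∧ w T * ∫ t, K T t ^ β ∂(ms T) ≤ C)
    (hi : ∀ᶠ T in atTop, Integrable (fun t => z0 T t ^ β) (ms T))
    (hm : Tendsto (fun T => w T * ∫ t, z0 T t ^ β ∂(ms T)) atTop (𝓝 c))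
    {P : ∀ n : ℕ, (Fin n → unitInterval) → ProbabilityMeasure (Fin n → ℝ) → Prop}
    (hf : ∀ (n : ℕ) (x : Fin n → unitInterval), ∃ ρ : ProbabilityMeasure (Fin n → ℝ), P n x ρ ∧
      ∀ (F : (Fin n → ℝ) → ℝ) (A : ℝ), Continuous F → (∀ y, |F y| ≤ A * (1 + ∑ j, |y j| ^ β)) →
      Tendsto (fun T => w T * ∫ t, z0 T t ^ β * F (fun j => (z0 T t)⁻¹ * z T t (x j)) ∂(ms T)) atTop
        (𝓝 (c * ∫ y, F y ∂(ρ : Measure (Fin n → ℝ))))) :
    ∃ ν : ProbabilityMeasure CI, (∀ (n : ℕ) (x : Fin n → unitInterval), ∃ ρ : ProbabilityMeasure (Fin n → ℝ), P n x ρ ∧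
      (ν : Measure CI).map (fun f j => f (x j)) = (ρ : Measure (Fin n → ℝ))) ∧
      Integrable (gs β) (ν : Measure CI) ∧
      ∀ (F : CI → ℝ) (A : ℝ), Continuous F → (∀ f, |F f| ≤ A * (1 + ‖f‖ ^ β)) →
      Tendsto (fun T => w T * ∫ t, z0 T t ^ β * F ((z0 T t)⁻¹ • z T t) ∂(ms T)) atTop (𝓝 (c * ∫ f, F f ∂(ν : Measure CI))) := by
  classical
  obtain ⟨Z, hZ⟩ : ∃ Z : ℝ → ℝ → CI, ∀ T t, Z T t = (z0 T t)⁻¹ • z T t := ⟨_, fun _ _ => rfl⟩
  have hZm : ∀ᶠ T in atTop, Measurable (Z T) := by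
    filter_upwards [hz, hz0] with T h1 h2
    have e : Z T = fun t => (z0 T t)⁻¹ • z T t := funext (hZ T)
    rw [e]
    exact h2.1.inv.smul h1
  have hZx : ∀ T t x, Z T t x = (z0 T t)⁻¹ * z T t x := fun T t x => by rw [hZ]; rfl
  obtain ⟨p, hpd⟩ : ∃ p : ℝ → ℝ → ℝ, ∀ T t, p T t = w T * z0 T t ^ β := ⟨_, fun _ _ => rfl⟩
  have hp : ∀ᶠ T in atTop, Measurable (p T) ∧ ∀ t, 0 ≤ p T t := by
    filter_upwards [hw, hz0] with T h1 h2
    have e : p T = fun t => w T * z0 T t ^ β := funext (hpd T)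
    rw [e]
    exact ⟨(h2.1.pow_const β).const_mul _, fun t => mul_nonneg h1 (Real.rpow_nonneg (h2.2 t) _)⟩
  have hpi : ∀ᶠ T in atTop, Integrable (p T) (ms T) := by
    filter_upwards [hi] with T h1
    have e : p T = fun t => w T * z0 T t ^ β := funext (hpd T)
    rw [e]
    exact h1.const_mul _
  obtain ⟨M, hMd⟩ : ∃ M : ℝ → ℝ, ∀ T, M T = ∫ t, p T t ∂(ms T) := ⟨_, fun _ => rfl⟩
  have hM : Tendsto M atTop (𝓝 c) := by
    refine hm.congr fun T => ?_
    rw [hMd]
    simp_rw [hpd]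
    rw [integral_const_mul]
  have hM2 : ∀ᶠ T in atTop, c / 2 < M T := hM.eventually (lt_mem_nhds (by linarith))
  obtain ⟨q, hqd⟩ : ∃ q : ℝ → ℝ → ℝ, ∀ T t, q T t = p T t / M T := ⟨_, fun _ _ => rfl⟩
  have hq : ∀ᶠ T in atTop, Measurable (q T) ∧ (∀ t, 0 ≤ q T t) ∧ Integrable (q T) (ms T) ∧ ∫ t, q T t ∂(ms T) = 1 := by
    filter_upwards [hp, hM2, hpi] with T h1 h2 h3
    have e : q T = fun t => p T t / M T := funext (hqd T)
    have h4 : 0 < M T := by linarith
    rw [e]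
    refine ⟨h1.1.div_const _, fun t => div_nonneg (h1.2 t) h4.le, h3.div_const _, ?_⟩
    rw [integral_div, ← hMd, div_self h4.ne']
  obtain ⟨μ, hμ⟩ : ∃ μ : ℝ → ProbabilityMeasure CI, ∀ᶠ T : ℝ in atTop, (μ T : Measure CI) = wl (q T) (Z T) (ms T) := by
    have hex : ∀ T : ℝ, ∃ μT : ProbabilityMeasure CI, IsProbabilityMeasure (wl (q T) (Z T) (ms T)) →
        (μT : Measure CI) = wl (q T) (Z T) (ms T) := by
      intro T
      by_cases h : IsProbabilityMeasure (wl (q T) (Z T) (ms T))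
      · exact ⟨⟨wl (q T) (Z T) (ms T), h⟩, fun _ => rfl⟩
      · exact ⟨⟨Measure.dirac 0, inferInstance⟩, fun h1 => absurd h1 h⟩
    choose μ hμ using hex
    refine ⟨μ, ?_⟩
    filter_upwards [hq, hZm] with T h1 h2
    exact hμ T (wl_prob h1.2.1 h1.2.2.1 h2 h1.2.2.2)
  have hμi : ∀ᶠ T : ℝ in atTop, ∀ G : CI → ℝ, Continuous G →
      ∫ f, G f ∂(μ T : Measure CI) = (∫ t, p T t * G (Z T t) ∂(ms T)) / M T := by
    filter_upwards [hq, hZm, hμ] with T h1 h2 h3 G hG
    rw [h3, wl_integral h1.1 h1.2.1 h2 hG, ← integral_div]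
    refine integral_congr_ae (Eventually.of_forall fun t => ?_)
    show q T t * G (Z T t) = p T t * G (Z T t) / M T
    rw [hqd]; ring
  -- bounds
  have hZK : ∀ᶠ T in atTop, ∀ᵐ t ∂(ms T), 0 < z0 T t ∧ (∀ x, |Z T t x| ≤ K T t / z0 T t) ∧
      ∀ x y, |Z T t x - Z T t y| ≤ K T t / z0 T t * dist x y := by
    filter_upwards [hpos, hK] with T h1 h2
    filter_upwards [h1, h2.1] with t h3 h4
    refine ⟨h3, fun x => ?_, fun x y => ?_⟩
    · rw [hZx, abs_mul, abs_inv, abs_of_pos h3, div_eq_inv_mul]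
      exact mul_le_mul_of_nonneg_left (h4.1 x) (by positivity)
    · rw [hZx, hZx, ← mul_sub, abs_mul, abs_inv, abs_of_pos h3, div_eq_inv_mul, mul_assoc]
      exact mul_le_mul_of_nonneg_left (h4.2 x y) (by positivity)
  -- compactness
  have htail : ∀ᶠ T in atTop, ∀ R : ℝ, 0 < R → (μ T : Measure CI) (KL R)ᶜ ≤ ENNReal.ofReal (2 * C / c * R ^ (-β)) := by
    filter_upwards [hq, hZm, hμ, hK, hZK, hw, hM2, hz0] with T h1 h2 h3 h4 h5 h6 h7 h8 R hR
    have hM0 : 0 < M T := by linarith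
    rw [h3]
    refine (wl_le (h := fun t => w T / M T * R ^ (-β) * K T t ^ β) (KL_compact hR.le).isClosed.measurableSet.compl h2
      (h4.2.2.1.const_mul _) (fun t => ?_) ?_).trans (ENNReal.ofReal_le_ofReal ?_)
    · have := h4.2.1 t
      positivity
    · filter_upwards [h5] with t h9 hmem
      obtain ⟨hz00, hz1, hz2⟩ := h9
      have hbig : R * z0 T t ≤ K T t := by
        by_contra hcon
        push Not at hcon
        have hlt : K T t / z0 T t ≤ R := by
          rw [div_le_iff₀ hz00]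
          exact hcon.le
        exact hmem ⟨fun x => (hz1 x).trans hlt, fun x y => (hz2 x y).trans (mul_le_mul_of_nonneg_right hlt dist_nonneg)⟩
      rw [hqd, hpd]
      have h10 : z0 T t ^ β ≤ R ^ (-β) * K T t ^ β := by
        have h11 := Real.rpow_le_rpow (by positivity) hbig hβ.le
        rw [Real.mul_rpow hR.le hz00.le] at h11
        rw [Real.rpow_neg hR.le, inv_mul_eq_div, le_div_iff₀ (by positivity), mul_comm]
        exact h11
      have h12 := mul_le_mul_of_nonneg_left h10 (show 0 ≤ w T / M T by positivity)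
      calc w T * z0 T t ^ β / M T = w T / M T * z0 T t ^ β := by ring
        _ ≤ w T / M T * (R ^ (-β) * K T t ^ β) := h12
        _ = w T / M T * R ^ (-β) * K T t ^ β := by ring
    · rw [integral_const_mul]
      have h13 := h4.2.2.2
      have h14 : 0 ≤ w T * ∫ t, K T t ^ β ∂(ms T) :=
        mul_nonneg h6 (integral_nonneg fun t => Real.rpow_nonneg (h4.2.1 t) _)
      have h15 : w T / M T * R ^ (-β) * ∫ t, K T t ^ β ∂(ms T) = R ^ (-β) * ((w T * ∫ t, K T t ^ β ∂(ms T)) / M T) := by ring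
      rw [h15, mul_comm (2 * C / c)]
      refine mul_le_mul_of_nonneg_left ?_ (by positivity)
      rw [div_le_div_iff₀ hM0 hc]
      nlinarith
  obtain ⟨T0, hT0⟩ := eventually_atTop.mp htail
  have hcomp := tight_KL (μ := μ) (T0 := T0) (b := fun R => 2 * C / c * R ^ (-β)) (by
    have h1 := (tendsto_rpow_neg_atTop hβ).const_mul (2 * C / c)
    rwa [mul_zero] at h1) hT0
  -- finite-dimensional distributions
  have hfd : ∀ (n : ℕ) (x : Fin n → unitInterval) (ρ : ProbabilityMeasure (Fin n → ℝ)),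
      (∀ (F : (Fin n → ℝ) → ℝ) (A : ℝ), Continuous F → (∀ y, |F y| ≤ A * (1 + ∑ j, |y j| ^ β)) →
      Tendsto (fun T => w T * ∫ t, z0 T t ^ β * F (fun j => (z0 T t)⁻¹ * z T t (x j)) ∂(ms T)) atTop
        (𝓝 (c * ∫ y, F y ∂(ρ : Measure (Fin n → ℝ))))) → ∀ G : BoundedContinuousFunction (Fin n → ℝ) ℝ,
      Tendsto (fun T => ∫ f, G (fun j => f (x j)) ∂(μ T : Measure CI)) atTop (𝓝 (∫ y, G y ∂(ρ : Measure (Fin n → ℝ)))) := by
    intro n x ρ h G
    have h1 := h G ‖G‖ G.continuous (fun y => by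
      refine (G.norm_coe_le_norm y).trans ?_
      have h2 : 0 ≤ ∑ j, |y j| ^ β := sum_nonneg fun j _ => by positivity
      nlinarith [norm_nonneg G])
    have h3 := h1.div hM hc.ne'
    rw [mul_div_cancel_left₀ _ hc.ne'] at h3
    refine h3.congr' ?_
    filter_upwards [hμi] with T h4
    rw [h4 (fun f => G (fun j => f (x j))) (G.continuous.comp (ev_cont x))]
    show (w T * ∫ t, z0 T t ^ β * G (fun j => (z0 T t)⁻¹ * z T t (x j)) ∂(ms T)) / M T = _
    rw [← integral_const_mul]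
    congr 1
    refine integral_congr_ae (Eventually.of_forall fun t => ?_)
    simp only [hpd, hZx]
    ring
  obtain ⟨ν, hν⟩ := flim hcomp (by
    filter_upwards [eventually_ge_atTop T0] with T hT
    exact subset_closure ⟨T, hT, rfl⟩) (fun n x G => by
    obtain ⟨ρ, -, hρ⟩ := hf n x
    exact ⟨_, hfd n x ρ hρ G⟩)
  have hνF := ProbabilityMeasure.tendsto_iff_forall_integral_tendsto.mp hν
  have hmarg : ∀ (n : ℕ) (x : Fin n → unitInterval) (ρ : ProbabilityMeasure (Fin n → ℝ)),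
      (∀ (F : (Fin n → ℝ) → ℝ) (A : ℝ), Continuous F → (∀ y, |F y| ≤ A * (1 + ∑ j, |y j| ^ β)) →
      Tendsto (fun T => w T * ∫ t, z0 T t ^ β * F (fun j => (z0 T t)⁻¹ * z T t (x j)) ∂(ms T)) atTop
        (𝓝 (c * ∫ y, F y ∂(ρ : Measure (Fin n → ℝ))))) →
      (ν : Measure CI).map (fun f j => f (x j)) = (ρ : Measure (Fin n → ℝ)) := by
    intro n x ρ h
    have hm1 : Measurable fun f : CI => fun j => f (x j) := (ev_cont x).measurable
    have : IsProbabilityMeasure ((ν : Measure CI).map (fun f j => f (x j))) := Measure.isProbabilityMeasure_map hm1.aemeasurable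
    refine ext_of_forall_integral_eq_of_IsFiniteMeasure fun G => ?_
    rw [integral_map hm1.aemeasurable G.continuous.aestronglyMeasurable]
    exact tendsto_nhds_unique (hνF (G.compContinuous ⟨_, ev_cont x⟩)) (hfd n x ρ h G)
  -- the norms at the nodes
  have hC0 : 0 ≤ C := by
    obtain ⟨T, h1, h2⟩ := (hK.and hw).exists
    exact (mul_nonneg h2 (integral_nonneg fun t => Real.rpow_nonneg (h1.2.1 t) _)).trans h1.2.2.2
  obtain ⟨e, he⟩ : ∃ e : ℕ → ℝ, ∀ n, e n = ∫ f, ‖fun k => f (nd n k)‖ ^ β ∂(ν : Measure CI) := ⟨_, fun _ => rfl⟩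
  obtain ⟨Q, hQ⟩ : ∃ Q : ℕ → ℝ → ℝ, ∀ n T, Q n T = w T * ∫ t, z0 T t ^ β * ‖fun k => (z0 T t)⁻¹ * z T t (nd n k)‖ ^ β ∂(ms T) :=
    ⟨_, fun _ _ => rfl⟩
  have hQlim : ∀ n, Tendsto (Q n) atTop (𝓝 (c * e n)) := by
    intro n
    obtain ⟨ρ, -, hρ⟩ := hf (n + 1) (nd n)
    have hcn : Continuous fun y : Fin (n + 1) → ℝ => ‖y‖ ^ β := continuous_norm.rpow_const fun _ => Or.inr hβ.le
    have h1 := hρ (fun y => ‖y‖ ^ β) 1 hcn (fun y => by
      rw [abs_of_nonneg (by positivity), one_mul]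
      have := pi_pow_le hβ y
      linarith)
    have h2 := hmarg (n + 1) (nd n) ρ hρ
    have h3 : ∫ y, ‖y‖ ^ β ∂(ρ : Measure (Fin (n + 1) → ℝ)) = e n := by
      rw [← h2, integral_map (ev_cont (nd n)).measurable.aemeasurable hcn.aestronglyMeasurable, he]
    rw [h3] at h1
    exact h1.congr fun T => (hQ n T).symm
  have hptw : ∀ᶠ T in atTop, ∀ᵐ t ∂(ms T), z0 T t ^ β * ‖Z T t‖ ^ β ≤ K T t ^ β := by
    filter_upwards [hZK, hK] with T h1 h2
    filter_upwards [h1] with t h3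
    have h4 : ‖Z T t‖ ≤ K T t / z0 T t := by
      rw [ContinuousMap.norm_le _ (div_nonneg (h2.2.1 t) h3.1.le)]
      exact h3.2.1
    rw [← Real.mul_rpow h3.1.le (norm_nonneg _)]
    refine Real.rpow_le_rpow (mul_nonneg h3.1.le (norm_nonneg _)) ?_ hβ.le
    calc z0 T t * ‖Z T t‖ ≤ z0 T t * (K T t / z0 T t) := mul_le_mul_of_nonneg_left h4 h3.1.le
      _ = K T t := by rw [mul_div_cancel₀]; exact h3.1.ne'
  have hQn : ∀ (n : ℕ) T t, (fun k => (z0 T t)⁻¹ * z T t (nd n k)) = fun k => Z T t (nd n k) := fun n T t => by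
    funext k
    rw [hZx]
  have hnm : ∀ᶠ T in atTop, Measurable (fun t => z0 T t ^ β * ‖Z T t‖ ^ β) := by
    filter_upwards [hz0, hZm] with T h1 h2
    exact (h1.1.pow_const β).mul (h2.norm.pow_const β)
  have hnmi : ∀ᶠ T in atTop, Integrable (fun t => z0 T t ^ β * ‖Z T t‖ ^ β) (ms T) := by
    filter_upwards [hnm, hK, hptw, hz0] with T h1 h2 h3 h4
    refine h2.2.2.1.mono' h1.aestronglyMeasurable ?_
    filter_upwards [h3] with t h5
    rw [Real.norm_of_nonneg (mul_nonneg (Real.rpow_nonneg (h4.2 t) _) (by positivity))]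
    exact h5
  have hndi : ∀ᶠ T in atTop, ∀ n : ℕ, Integrable (fun t => z0 T t ^ β * ‖fun k => (z0 T t)⁻¹ * z T t (nd n k)‖ ^ β) (ms T) := by
    filter_upwards [hnmi, hz0, hZm] with T h1 h2 h3 n
    refine h1.mono' ?_ (Eventually.of_forall fun t => ?_)
    · simp_rw [hQn]
      exact ((h2.1.pow_const β).mul ((((ev_cont (nd n)).measurable.comp h3).norm).pow_const β)).aestronglyMeasurable
    · rw [hQn, Real.norm_of_nonneg (mul_nonneg (Real.rpow_nonneg (h2.2 t) _) (by positivity))]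
      exact mul_le_mul_of_nonneg_left (Real.rpow_le_rpow (norm_nonneg _) (nd_le_norm _ _) hβ.le) (Real.rpow_nonneg (h2.2 t) _)
  obtain ⟨G, hG⟩ : ∃ G : ℝ → ℝ, ∀ T, G T = w T * ∫ t, z0 T t ^ β * ‖Z T t‖ ^ β ∂(ms T) := ⟨_, fun _ => rfl⟩
  have hQG : ∀ᶠ T in atTop, ∀ n, Q n T ≤ G T := by
    filter_upwards [hnmi, hndi, hw, hz0] with T h1 h2 h3 h4 n
    rw [hQ, hG]
    refine mul_le_mul_of_nonneg_left (integral_mono (h2 n) h1 fun t => ?_) h3
    show z0 T t ^ β * ‖fun k => (z0 T t)⁻¹ * z T t (nd n k)‖ ^ β ≤ z0 T t ^ β * ‖Z T t‖ ^ β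
    rw [hQn]
    exact mul_le_mul_of_nonneg_left (Real.rpow_le_rpow (norm_nonneg _) (nd_le_norm _ _) hβ.le) (Real.rpow_nonneg (h4.2 t) _)
  have hGC : ∀ᶠ T in atTop, G T ≤ C := by
    filter_upwards [hnmi, hptw, hw, hK] with T h1 h2 h3 h4
    rw [hG]
    exact (mul_le_mul_of_nonneg_left (integral_mono_ae h1 h4.2.2.1 h2) h3).trans h4.2.2.2
  have heC : ∀ n, c * e n ≤ C := fun n => by
    refine le_of_tendsto (hQlim n) ?_
    filter_upwards [hQG, hGC] with T h1 h2
    exact (h1 n).trans h2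
  have hnb : ∀ n : ℕ, Integrable (fun f : CI => ‖fun k => f (nd n k)‖ ^ β) (ν : Measure CI) := by
    intro n
    obtain ⟨ρ, -, hρ⟩ := hf (n + 1) (nd n)
    have hcn : Continuous fun y : Fin (n + 1) → ℝ => ‖y‖ ^ β := continuous_norm.rpow_const fun _ => Or.inr hβ.le
    have hcf : Continuous fun f : CI => ‖fun k => f (nd n k)‖ ^ β := hcn.comp (ev_cont (nd n))
    -- truncations
    refine ⟨hcf.aestronglyMeasurable, ?_⟩
    rw [hasFiniteIntegral_iff_norm]
    have h1 : ∀ N : ℕ, ∫⁻ f : CI, ENNReal.ofReal (min (‖fun k => f (nd n k)‖ ^ β) N) ∂(ν : Measure CI) ≤ ENNReal.ofReal (C / c) := by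
      intro N
      obtain ⟨B, hB⟩ : ∃ B : BoundedContinuousFunction CI ℝ, ∀ f, B f = min (‖fun k => f (nd n k)‖ ^ β) N :=
        ⟨BoundedContinuousFunction.ofNormedAddCommGroup (fun f : CI => min (‖fun k => f (nd n k)‖ ^ β) N)
          (hcf.min continuous_const) N (fun f => by
            rw [Real.norm_eq_abs, abs_of_nonneg (le_min (by positivity) (Nat.cast_nonneg N))]
            exact min_le_right _ _), fun f => rfl⟩
      simp_rw [← hB]
      rw [← ofReal_integral_eq_lintegral_ofReal (B.integrable _) (Eventually.of_forall fun f => by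
        show 0 ≤ B f
        rw [hB]
        exact le_min (by positivity) (Nat.cast_nonneg N))]
      refine ENNReal.ofReal_le_ofReal ?_
      refine le_of_tendsto_of_tendsto (hνF B) (tendsto_const_nhds.div hM hc.ne') ?_
      filter_upwards [hμi, hM2, hnmi, hp, hGC, hZm] with T g1 g2 g3 g4 g5 g6
      have hM0 : 0 < M T := by linarith
      rw [g1 B B.continuous]
      refine div_le_div_of_nonneg_right ?_ hM0.le
      refine le_trans ?_ g5
      rw [hG, ← integral_const_mul]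
      refine integral_mono_of_nonneg (Eventually.of_forall fun t => ?_) (g3.const_mul _) (Eventually.of_forall fun t => ?_)
      · refine mul_nonneg (g4.2 t) ?_
        rw [hB]
        exact le_min (by positivity) (Nat.cast_nonneg N)
      · show p T t * B (Z T t) ≤ w T * (z0 T t ^ β * ‖Z T t‖ ^ β)
        rw [← mul_assoc, ← hpd, hB]
        exact mul_le_mul_of_nonneg_left ((min_le_left _ _).trans (Real.rpow_le_rpow (norm_nonneg _) (nd_le_norm _ _) hβ.le)) (g4.2 t)
    have h2 : ∫⁻ f : CI, ENNReal.ofReal ‖‖fun k => f (nd n k)‖ ^ β‖ ∂(ν : Measure CI) ≤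
        liminf (fun N : ℕ => ∫⁻ f : CI, ENNReal.ofReal (min (‖fun k => f (nd n k)‖ ^ β) N) ∂(ν : Measure CI)) atTop := by
      refine le_trans (lintegral_mono fun f => ?_) (lintegral_liminf_le fun N => ?_)
      · refine le_of_eq (Tendsto.liminf_eq ?_).symm
        rw [Real.norm_of_nonneg (by positivity)]
        obtain ⟨N0, hN0⟩ := exists_nat_ge (‖fun k => f (nd n k)‖ ^ β)
        refine tendsto_const_nhds.congr' ?_
        filter_upwards [eventually_ge_atTop N0] with N hN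
        rw [min_eq_left]
        exact hN0.trans (by exact_mod_cast hN)
      · exact ENNReal.measurable_ofReal.comp (hcf.min continuous_const).measurable
    refine lt_of_le_of_lt h2 (lt_of_le_of_lt ?_ (ENNReal.ofReal_lt_top (r := C / c)))
    exact (liminf_le_liminf (Eventually.of_forall h1)).trans (le_of_eq (liminf_const _))
  have hnorm : Integrable (fun f : CI => ‖f‖ ^ β) (ν : Measure CI) := by
    have hcf : Continuous fun f : CI => ‖f‖ ^ β := continuous_norm.rpow_const fun _ => Or.inr hβ.le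
    refine ⟨hcf.aestronglyMeasurable, ?_⟩
    rw [hasFiniteIntegral_iff_norm]
    have h1 : ∀ n : ℕ, ∫⁻ f : CI, ENNReal.ofReal (‖fun k => f (nd n k)‖ ^ β) ∂(ν : Measure CI) ≤ ENNReal.ofReal (C / c) := by
      intro n
      rw [← ofReal_integral_eq_lintegral_ofReal (hnb n) (Eventually.of_forall fun f => by positivity), ← he]
      refine ENNReal.ofReal_le_ofReal ?_
      rw [le_div_iff₀ hc, mul_comm]
      exact heC n
    have h2 : ∫⁻ f : CI, ENNReal.ofReal ‖‖f‖ ^ β‖ ∂(ν : Measure CI) ≤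
        liminf (fun n : ℕ => ∫⁻ f : CI, ENNReal.ofReal (‖fun k => f (nd n k)‖ ^ β) ∂(ν : Measure CI)) atTop := by
      refine le_trans (lintegral_mono fun f => ?_) (lintegral_liminf_le fun n => ?_)
      · refine le_of_eq (Tendsto.liminf_eq ?_).symm
        rw [Real.norm_of_nonneg (by positivity)]
        exact ENNReal.tendsto_ofReal ((Real.continuousAt_rpow_const _ _ (Or.inr hβ.le)).tendsto.comp (nd_tendsto f))
      · exact ENNReal.measurable_ofReal.comp
          ((continuous_norm.rpow_const fun _ => Or.inr hβ.le).comp (ev_cont (nd n))).measurable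
    refine lt_of_le_of_lt h2 (lt_of_le_of_lt ?_ (ENNReal.ofReal_lt_top (r := C / c)))
    exact (liminf_le_liminf (Eventually.of_forall h1)).trans (le_of_eq (liminf_const _))
  obtain ⟨e0, he0⟩ : ∃ e0 : ℝ, e0 = ∫ f, ‖f‖ ^ β ∂(ν : Measure CI) := ⟨_, rfl⟩
  have helim : Tendsto e atTop (𝓝 e0) := by
    rw [he0]
    have h1 : Tendsto (fun n : ℕ => ∫ f, ‖fun k => f (nd n k)‖ ^ β ∂(ν : Measure CI)) atTop (𝓝 (∫ f, ‖f‖ ^ β ∂(ν : Measure CI))) := by
      refine tendsto_integral_of_dominated_convergence (fun f => ‖f‖ ^ β) (fun n => (hnb n).aestronglyMeasurable) hnorm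
        (fun n => Eventually.of_forall fun f => ?_) (Eventually.of_forall fun f => ?_)
      · rw [Real.norm_of_nonneg (by positivity)]
        exact Real.rpow_le_rpow (norm_nonneg _) (nd_le_norm _ _) hβ.le
      · exact (Real.continuousAt_rpow_const _ _ (Or.inr hβ.le)).tendsto.comp (nd_tendsto f)
    exact h1.congr fun n => (he n).symm
  have hele : ∀ n, e n ≤ e0 := fun n => by
    rw [he, he0]
    exact integral_mono (hnb n) hnorm fun f => Real.rpow_le_rpow (norm_nonneg _) (nd_le_norm _ _) hβ.le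
  have he00 : 0 ≤ e0 := by rw [he0]; exact integral_nonneg fun f => by positivity
  -- the upper bound
  have hup : ∀ ε : ℝ, 0 < ε → ∀ n : ℕ, n ≠ 0 → ∀ᶠ T in atTop, G T ≤ (1 + ε) ^ β * Q n T + (1 + 1 / ε) ^ β * (1 / n) ^ β * C := by
    intro ε hε n hn
    filter_upwards [hnmi, hndi, hw, hz0, hZK, hK] with T h1 h2 h3 h4 h5 h6
    have hn0 : (0:ℝ) < n := by positivity
    have h7 : ∫ t, z0 T t ^ β * ‖Z T t‖ ^ β ∂(ms T) ≤ ∫ t, ((1 + ε) ^ β * (z0 T t ^ β * ‖fun k => (z0 T t)⁻¹ * z T t (nd n k)‖ ^ β) +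
        (1 + 1 / ε) ^ β * (1 / n) ^ β * K T t ^ β) ∂(ms T) := by
      refine integral_mono_ae h1 (((h2 n).const_mul _).add (h6.2.2.1.const_mul _)) ?_
      filter_upwards [h5] with t h8
      have hKz : 0 ≤ K T t / z0 T t := div_nonneg (h6.2.1 t) h8.1.le
      have h9 := norm_le_nd hn hKz h8.2.2
      have h10 := (Real.rpow_le_rpow (norm_nonneg _) h9 hβ.le).trans (pow_split (norm_nonneg _) (div_nonneg hKz hn0.le) hε hβ)
      have h11 := mul_le_mul_of_nonneg_left h10 (Real.rpow_nonneg h8.1.le β)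
      refine h11.trans (le_of_eq ?_)
      rw [hQn]
      have h12 : (K T t / z0 T t / n) ^ β = (1 / n) ^ β * K T t ^ β / z0 T t ^ β := by
        have h13 : K T t / z0 T t / n = 1 / n * K T t / z0 T t := by ring
        rw [h13, Real.div_rpow (mul_nonneg (by positivity) (h6.2.1 t)) h8.1.le, Real.mul_rpow (by positivity) (h6.2.1 t)]
      rw [h12]
      have h14 : z0 T t ^ β ≠ 0 := (Real.rpow_pos_of_pos h8.1 _).ne'
      field_simp
    rw [integral_add ((h2 n).const_mul _) (h6.2.2.1.const_mul _), integral_const_mul, integral_const_mul] at h7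
    rw [hG, hQ]
    have h15 := mul_le_mul_of_nonneg_left h7 h3
    have h16 : (1 + 1 / ε) ^ β * (1 / (n:ℝ)) ^ β * (w T * ∫ t, K T t ^ β ∂(ms T)) ≤ (1 + 1 / ε) ^ β * (1 / (n:ℝ)) ^ β * C :=
      mul_le_mul_of_nonneg_left h6.2.2.2 (by positivity)
    refine h15.trans ?_
    linarith
  have hGlim : Tendsto G atTop (𝓝 (c * e0)) := by
    rw [tendsto_order]
    constructor
    · intro a ha
      have h1 : Tendsto (fun n => c * e n) atTop (𝓝 (c * e0)) := helim.const_mul c
      obtain ⟨n, hn⟩ := (h1.eventually (lt_mem_nhds ha)).exists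
      filter_upwards [(hQlim n).eventually (lt_mem_nhds hn), hQG] with T h2 h3
      exact h2.trans_le (h3 n)
    · intro a ha
      obtain ⟨ε, hε1, hε⟩ : ∃ ε : ℝ, (1 + ε) ^ β * (c * e0 + ε) < (c * e0 + a) / 2 ∧ 0 < ε := by
        have h1 : ContinuousAt (fun ε : ℝ => (1 + ε) ^ β * (c * e0 + ε)) 0 := by
          refine ContinuousAt.mul ?_ (by fun_prop)
          exact ((continuousAt_const.add continuousAt_id).rpow_const (Or.inl (by norm_num)))
        have h2 : (1 + (0:ℝ)) ^ β * (c * e0 + 0) < (c * e0 + a) / 2 := by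
          rw [add_zero, Real.one_rpow, one_mul, add_zero]
          linarith
        have h3 := (h1.eventually (gt_mem_nhds h2)).filter_mono (nhdsWithin_le_nhds (s := Set.Ioi 0))
        exact (h3.and self_mem_nhdsWithin).exists
      obtain ⟨n, hn1, hn⟩ : ∃ n : ℕ, (1 + 1 / ε) ^ β * (1 / (n:ℝ)) ^ β * C < (a - c * e0) / 2 ∧ n ≠ 0 := by
        have h1 : Tendsto (fun n : ℕ => (1 + 1 / ε) ^ β * (1 / (n:ℝ)) ^ β * C) atTop (𝓝 ((1 + 1 / ε) ^ β * 0 ^ β * C)) := by
          refine (((Real.continuousAt_rpow_const 0 β (Or.inr hβ.le)).tendsto.comp tendsto_one_div_atTop_nhds_zero_nat).const_mul _).mul_const _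
        rw [Real.zero_rpow hβ.ne', mul_zero, zero_mul] at h1
        exact ((h1.eventually (gt_mem_nhds (by linarith))).and (eventually_ne_atTop 0)).exists
      have hlt : c * e n < c * e0 + ε := by
        have := mul_le_mul_of_nonneg_left (hele n) hc.le
        linarith
      filter_upwards [hup ε hε n hn, (hQlim n).eventually (gt_mem_nhds hlt)] with T h2 h3
      have h4 : (1 + ε) ^ β * Q n T ≤ (1 + ε) ^ β * (c * e0 + ε) := mul_le_mul_of_nonneg_left h3.le (by positivity)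
      linarith
  refine ⟨ν, fun n x => ?_, (integrable_const _).add hnorm, fun F A hF hFA => ?_⟩
  · obtain ⟨ρ, h1, h2⟩ := hf n x
    exact ⟨ρ, h1, hmarg n x ρ h2⟩
  have main := unb2 (p := p) (Y := Z) (ms := ms) (ρ := (ν : Measure CI)) (c := c) (g := gs β) hp hZm (gs_cont hβ)
    (fun f => by
      unfold gs
      have : 0 ≤ ‖f‖ ^ β := by positivity
      linarith) (by
      filter_upwards [hpi, hnmi] with T h1 h2
      have e1 : (fun t => p T t * gs β (Z T t)) = fun t => p T t + w T * (z0 T t ^ β * ‖Z T t‖ ^ β) := by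
        funext t
        unfold gs
        rw [hpd]; ring
      rw [e1]
      exact h1.add (h2.const_mul _)) ((integrable_const _).add hnorm) (by
      have h1 := hM.add hGlim
      have e2 : c * ∫ y, gs β y ∂(ν : Measure CI) = c + c * e0 := by
        unfold gs
        rw [integral_add (integrable_const _) hnorm, ← he0]
        simp
        ring
      rw [e2]
      refine h1.congr' ?_
      filter_upwards [hpi, hnmi] with T h1 h2
      have e1 : (fun t => p T t * gs β (Z T t)) = fun t => p T t + w T * (z0 T t ^ β * ‖Z T t‖ ^ β) := by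
        funext t
        unfold gs
        rw [hpd]; ring
      rw [e1, integral_add h1 (h2.const_mul _), integral_const_mul, hMd, hG]) (fun B => by
      have h1 := (hνF B).mul hM
      rw [mul_comm] at h1
      refine h1.congr' ?_
      filter_upwards [hμi, hM2] with T h2 h3
      rw [h2 B B.continuous, div_mul_cancel₀]
      linarith) hF (A := A) hFA
  refine main.congr fun T => ?_
  rw [← integral_const_mul]
  refine integral_congr_ae (Eventually.of_forall fun t => ?_)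
  simp only [hpd, hZ]
  ring

end Pool.Agent.R313.FN
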