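import Mathlib

set_option autoImplicit false

/-! Powers of absolute values of holomorphic functions: the mean value inequality. -/

namespace Pool.Agent.R313.FN

open Complex Filter Topology Set MeasureTheory

/-- Jensen's inequality for an analytic function -/
lemma jen {f : ℂ → ℂ} {c : ℂ} {R : ℝ} (hR : 0 < R) (hf : AnalyticOnNhd ℂ f (Metric.closedBall c R)) (h0 : f c ≠ 0) :
    Real.log ‖f c‖ ≤ Real.circleAverage (fun z => Real.log ‖f z‖) c R := by
  have hR' : |R| = R := abs_of_pos hR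
  have h := AnalyticOnNhd.circleAverage_log_norm (c := c) (R := R) (f := f) hR.ne' (by rwa [hR']) h0
  rw [hR'] at h
  rw [h]
  have h2 : 0 ≤ ∑ᶠ u, (MeromorphicOn.divisor f (Metric.closedBall c R) u : ℝ) * Real.log (R * ‖c - u‖⁻¹) := by
    apply finsum_nonneg
    intro u
    by_cases hu : u ∈ Metric.closedBall c R
    · apply mul_nonneg
      · rw [MeromorphicOn.divisor_apply hf.meromorphicOn hu]
        have h5 := (hf u hu).meromorphicOrderAt_nonneg
        have h3 : 0 ≤ (meromorphicOrderAt f u).untop₀ := by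
          cases h4 : meromorphicOrderAt f u with
          | top => simp
          | coe n =>
            rw [h4] at h5
            simpa using h5
        exact_mod_cast h3
      · rw [Metric.mem_closedBall, dist_eq_norm] at hu
        rcases eq_or_ne u c with rfl | hu0
        · simp
        · apply Real.log_nonneg
          have hpos : 0 < ‖c - u‖ := norm_pos_iff.mpr (sub_ne_zero.mpr (Ne.symm hu0))
          rw [← div_eq_mul_inv, le_div_iff₀ hpos, one_mul, norm_sub_rev]
          exact hu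
    · have : MeromorphicOn.divisor f (Metric.closedBall c R) u = 0 :=
        Function.locallyFinsuppWithin.apply_eq_zero_of_notMem _ hu
      rw [this]
      simp
  linarith

lemma cod {f : ℂ → ℂ} {c : ℂ} {R : ℝ} (hR : 0 < R) (hf : AnalyticOnNhd ℂ f (Metric.closedBall c R)) (h0 : f c ≠ 0) :
    ∀ᶠ z in codiscreteWithin (Metric.sphere c |R|), f z ≠ 0 := by
  have h := AnalyticOnNhd.preimage_zero_mem_codiscreteWithin (f := f) (U := Metric.closedBall c R) hf h0
    (Metric.mem_closedBall_self hR.le) ((convex_closedBall c R).isConnected ⟨c, Metric.mem_closedBall_self hR.le⟩)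
  rw [abs_of_pos hR]
  exact (codiscreteWithin_mono Metric.sphere_subset_closedBall) h

lemma sub_circle {f : ℂ → ℂ} {c : ℂ} {R β : ℝ} (hR : 0 < R) (hβ : 0 < β) (hf : AnalyticOnNhd ℂ f (Metric.closedBall c R)) :
    ‖f c‖ ^ β ≤ Real.circleAverage (fun z => ‖f z‖ ^ β) c R := by
  have hR' : |R| = R := abs_of_pos hR
  by_cases h0 : f c = 0
  · rw [h0, norm_zero, Real.zero_rpow hβ.ne']
    exact Real.circleAverage_nonneg_of_nonneg fun z _ => by positivity
  have hcont : ContinuousOn (fun z => ‖f z‖ ^ β) (Metric.sphere c |R|) := by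
    rw [hR']
    exact ((hf.continuousOn.mono Metric.sphere_subset_closedBall).norm).rpow_const fun _ _ => Or.inr hβ.le
  have hci : CircleIntegrable (fun z => ‖f z‖ ^ β) c R := hcont.circleIntegrable'
  have hli : CircleIntegrable (fun z => Real.log ‖f z‖) c R :=
    MeromorphicOn.circleIntegrable_log_norm (by
      rw [hR']
      exact fun z hz => (hf z (Metric.sphere_subset_closedBall hz)).meromorphicAt)
  obtain ⟨h, hh⟩ : ∃ h : ℂ → ℝ, ∀ z, h z = ‖f c‖ ^ β * (1 - β * Real.log ‖f c‖) + (‖f c‖ ^ β * β) * Real.log ‖f z‖ := ⟨_, fun _ => rfl⟩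
  have hhe : h = (fun _ => ‖f c‖ ^ β * (1 - β * Real.log ‖f c‖)) + (fun z => (‖f c‖ ^ β * β) • Real.log ‖f z‖) := by
    funext z
    rw [hh]
    rfl
  have hhi1 : CircleIntegrable (fun _ : ℂ => ‖f c‖ ^ β * (1 - β * Real.log ‖f c‖)) c R := circleIntegrable_const _ _ _
  have hhi2 : CircleIntegrable (fun z => (‖f c‖ ^ β * β) • Real.log ‖f z‖) c R := hli.const_smul
  have hhi : CircleIntegrable h c R := by
    rw [hhe]
    exact hhi1.add hhi2
  have havg : Real.circleAverage h c R = ‖f c‖ ^ β * (1 - β * Real.log ‖f c‖) +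
      (‖f c‖ ^ β * β) * Real.circleAverage (fun z => Real.log ‖f z‖) c R := by
    rw [hhe, Real.circleAverage_add hhi1 hhi2, Real.circleAverage_const, Real.circleAverage_fun_smul]
    rfl
  obtain ⟨h1, hh1⟩ : ∃ h1 : ℂ → ℝ, ∀ z, h1 z = if f z = 0 then 0 else h z := ⟨fun z => if f z = 0 then 0 else h z, fun _ => rfl⟩
  have hcod : h =ᶠ[codiscreteWithin (Metric.sphere c |R|)] h1 := by
    filter_upwards [cod hR hf h0] with z hz
    rw [hh1, if_neg hz]
  have h1i : CircleIntegrable h1 c R := hhi.congr_codiscreteWithin hcod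
  have h1avg : Real.circleAverage h c R = Real.circleAverage h1 c R := Real.circleAverage_congr_codiscreteWithin hcod hR.ne'
  have hpos : 0 < ‖f c‖ := norm_pos_iff.mpr h0
  have hle : Real.circleAverage h1 c R ≤ Real.circleAverage (fun z => ‖f z‖ ^ β) c R := by
    refine Real.circleAverage_mono h1i hci fun z _ => ?_
    rw [hh1]
    split_ifs with hz
    · positivity
    · have hzp : 0 < ‖f z‖ := norm_pos_iff.mpr hz
      rw [hh]
      have e1 : ‖f z‖ ^ β = ‖f c‖ ^ β * Real.exp (β * (Real.log ‖f z‖ - Real.log ‖f c‖)) := by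
        rw [Real.rpow_def_of_pos hzp, Real.rpow_def_of_pos hpos, ← Real.exp_add]
        congr 1; ring
      rw [e1]
      have e2 := Real.add_one_le_exp (β * (Real.log ‖f z‖ - Real.log ‖f c‖))
      have e3 : 0 < ‖f c‖ ^ β := Real.rpow_pos_of_pos hpos _
      nlinarith [mul_le_mul_of_nonneg_left e2 e3.le]
  have hj := jen hR hf h0
  rw [← h1avg, havg] at hle
  have e3 : 0 < ‖f c‖ ^ β * β := mul_pos (Real.rpow_pos_of_pos hpos _) hβ
  nlinarith [mul_le_mul_of_nonneg_left hj e3.le]

/-- rectangles -/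
def rc (a b B : ℝ) : Set ℂ := {z | a ≤ z.re ∧ z.re ≤ b ∧ |z.im| ≤ B}

lemma rc_compact (a b B : ℝ) : IsCompact (rc a b B) := by
  have : rc a b B = (Icc a b) ×ℂ (Icc (-B) B) := by
    ext z
    simp only [rc, Complex.mem_reProdIm, Set.mem_Icc, abs_le, Set.mem_ofPred_eq]
    tauto
  rw [this]
  exact isCompact_Icc.reProdIm isCompact_Icc

lemma sla_mean {β : ℝ} (hβ : 0 < β) (g : ℂ → ℂ) (U : Set ℂ) (hU : IsOpen U) (hg : DifferentiableOn ℂ g U) (s : ℂ)
    (x : ℝ) (hx : 0 < x) (hb : Metric.closedBall s x ⊆ U) :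
    2 * Real.pi * ‖g s‖ ^ β ≤ ∫ θ in Ioo (-Real.pi) Real.pi, ‖g (circleMap s x θ)‖ ^ β := by
  have h1 := sub_circle hx hβ (fun z hz => (hg.analyticOnNhd hU) z (hb hz))
  rw [Real.circleAverage_eq_integral_add (-Real.pi),
    intervalIntegral.integral_comp_add_right (fun θ => ‖g (circleMap s x θ)‖ ^ β)] at h1
  have e1 : (0 : ℝ) + -Real.pi = -Real.pi := by ring
  have e2 : 2 * Real.pi + -Real.pi = Real.pi := by ring
  have hpi := Real.pi_pos
  rw [e1, e2, smul_eq_mul, intervalIntegral.integral_of_le (by linarith), integral_Ioc_eq_integral_Ioo,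
    inv_mul_eq_div, le_div_iff₀ (by positivity)] at h1
  linarith

lemma sla_polar (β : ℝ) (g : ℂ → ℂ) (s : ℂ) (r : ℝ) :
    ∫ w in Metric.ball s r, ‖g w‖ ^ β
      = ∫ p in (Ioo 0 r) ×ˢ (Ioo (-Real.pi) Real.pi), p.1 * ‖g (circleMap s p.1 p.2)‖ ^ β := by
  have h1 : ∫ w in Metric.ball s r, ‖g w‖ ^ β
      = ∫ w : ℂ, (Metric.ball s r).indicator (fun w => ‖g w‖ ^ β) (s + w) := by
    rw [← integral_indicator Metric.isOpen_ball.measurableSet]
    exact (integral_add_left_eq_self _ s).symm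
  rw [h1, ← Complex.integral_comp_polarCoord_symm]
  have h2 : ∀ p ∈ polarCoord.target, p.1 • (Metric.ball s r).indicator (fun w => ‖g w‖ ^ β)
      (s + Complex.polarCoord.symm p)
      = ((Ioo 0 r) ×ˢ (Ioo (-Real.pi) Real.pi)).indicator
        (fun p : ℝ × ℝ => p.1 * ‖g (circleMap s p.1 p.2)‖ ^ β) p := by
    intro p hp
    rw [polarCoord_target] at hp
    have hp1 : 0 < p.1 := hp.1
    have hc : s + Complex.polarCoord.symm p = circleMap s p.1 p.2 := by
      rw [Complex.polarCoord_symm_apply, circleMap, Complex.exp_mul_I]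
      push_cast
      rfl
    rw [hc]
    by_cases hr' : p.1 < r
    · rw [Set.indicator_of_mem, Set.indicator_of_mem]
      · rfl
      · exact ⟨⟨hp1, hr'⟩, hp.2⟩
      · rw [Metric.mem_ball, dist_eq_norm, circleMap_sub_center, norm_circleMap_zero, abs_of_pos hp1]
        exact hr'
    · rw [Set.indicator_of_notMem, Set.indicator_of_notMem]
      · simp
      · intro hcon
        exact hr' hcon.1.2
      · rw [Metric.mem_ball, dist_eq_norm, circleMap_sub_center, norm_circleMap_zero, abs_of_pos hp1]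
        exact hr'
  rw [setIntegral_congr_fun polarCoord.open_target.measurableSet h2,
    setIntegral_indicator (measurableSet_Ioo.prod measurableSet_Ioo)]
  congr 2
  rw [polarCoord_target]
  ext p
  constructor
  · rintro ⟨_, h⟩
    exact h
  · rintro h
    exact ⟨⟨h.1.1, h.2⟩, h⟩

/-- the sup norm by the area norm -/
theorem sup_le_area {β : ℝ} (hβ : 0 < β) {a b a' b' B B' : ℝ} (h1 : a' < a) (h3 : b < b') (h5 : B < B') :
    ∃ C : ℝ, 0 < C ∧ ∀ (g : ℂ → ℂ) (U : Set ℂ), IsOpen U → rc a' b' B' ⊆ U →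
      DifferentiableOn ℂ g U → ∀ s ∈ rc a b B, ‖g s‖ ^ β ≤ C * ∫ w in rc a' b' B', ‖g w‖ ^ β := by
  obtain ⟨r, hr, hr1, hr2, hr3⟩ : ∃ r : ℝ, 0 < r ∧ r ≤ a - a' ∧ r ≤ b' - b ∧ r ≤ B' - B :=
    ⟨min (min (a - a') (b' - b)) (B' - B),
      lt_min (lt_min (by linarith) (by linarith)) (by linarith),
      le_trans (min_le_left _ _) (min_le_left _ _),
      le_trans (min_le_left _ _) (min_le_right _ _), min_le_right _ _⟩
  have hpi := Real.pi_pos
  refine ⟨(Real.pi * r ^ 2)⁻¹, by positivity, ?_⟩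
  intro g U hU hsub hg s hs
  have hball : Metric.closedBall s r ⊆ rc a' b' B' := by
    intro z hz
    rw [Metric.mem_closedBall, dist_eq_norm] at hz
    have e1 := (Complex.abs_re_le_norm (z - s)).trans hz
    have e2 := (Complex.abs_im_le_norm (z - s)).trans hz
    rw [Complex.sub_re, abs_le] at e1
    rw [Complex.sub_im, abs_le] at e2
    obtain ⟨s1, s2, s3⟩ := hs
    rw [abs_le] at s3
    refine ⟨by linarith [e1.1], by linarith [e1.2], ?_⟩
    rw [abs_le]
    constructor
    · linarith [e2.1, s3.1]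
    · linarith [e2.2, s3.2]
  have hgc : ContinuousOn g U := hg.continuousOn
  have hint : IntegrableOn (fun w => ‖g w‖ ^ β) (rc a' b' B') :=
    ContinuousOn.integrableOn_compact (rc_compact _ _ _) (((hgc.mono hsub).norm).rpow_const fun _ _ => Or.inr hβ.le)
  have hA : ∫ w in Metric.ball s r, ‖g w‖ ^ β ≤ ∫ w in rc a' b' B', ‖g w‖ ^ β := by
    refine setIntegral_mono_set hint (Filter.Eventually.of_forall fun w => by positivity) ?_
    exact (Metric.ball_subset_closedBall.trans hball).eventuallyLE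
  have hmap : ∀ p ∈ (Icc 0 r) ×ˢ (Icc (-Real.pi) Real.pi), circleMap s p.1 p.2 ∈ U := by
    intro p hp
    apply hsub
    apply hball
    rw [Metric.mem_closedBall, dist_eq_norm, circleMap_sub_center, norm_circleMap_zero,
      abs_of_nonneg hp.1.1]
    exact hp.1.2
  have hcm : Continuous fun p : ℝ × ℝ => circleMap s p.1 p.2 := by
    unfold circleMap
    fun_prop
  have hGint : IntegrableOn (fun p : ℝ × ℝ => p.1 * ‖g (circleMap s p.1 p.2)‖ ^ β)
      ((Ioo 0 r) ×ˢ (Ioo (-Real.pi) Real.pi)) := by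
    have hc : ContinuousOn (fun p : ℝ × ℝ => p.1 * ‖g (circleMap s p.1 p.2)‖ ^ β)
        ((Icc 0 r) ×ˢ (Icc (-Real.pi) Real.pi)) :=
      continuous_fst.continuousOn.mul (((hgc.comp hcm.continuousOn hmap).norm).rpow_const fun _ _ => Or.inr hβ.le)
    have := ContinuousOn.integrableOn_compact (μ := volume) (isCompact_Icc.prod isCompact_Icc) hc
    exact this.mono_set (Set.prod_mono Ioo_subset_Icc_self Ioo_subset_Icc_self)
  have hB : ∫ w in Metric.ball s r, ‖g w‖ ^ β
      = ∫ x in Ioo 0 r, ∫ θ in Ioo (-Real.pi) Real.pi, x * ‖g (circleMap s x θ)‖ ^ β := by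
    rw [sla_polar β g s r]
    exact setIntegral_prod _ hGint
  have hInt2 : IntegrableOn (fun x => ∫ θ in Ioo (-Real.pi) Real.pi,
      x * ‖g (circleMap s x θ)‖ ^ β) (Ioo 0 r) := by
    have h := hGint
    rw [IntegrableOn, Measure.volume_eq_prod, ← Measure.prod_restrict] at h
    exact h.integral_prod_left
  have hC : ∫ x in Ioo 0 r, x * (2 * Real.pi * ‖g s‖ ^ β)
      ≤ ∫ x in Ioo 0 r, ∫ θ in Ioo (-Real.pi) Real.pi, x * ‖g (circleMap s x θ)‖ ^ β := by
    refine setIntegral_mono_on ?_ hInt2 measurableSet_Ioo ?_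
    · have : ContinuousOn (fun x : ℝ => x * (2 * Real.pi * ‖g s‖ ^ β)) (Icc 0 r) := by fun_prop
      exact (ContinuousOn.integrableOn_compact isCompact_Icc this).mono_set Ioo_subset_Icc_self
    · intro x hx
      rw [integral_const_mul]
      refine mul_le_mul_of_nonneg_left ?_ hx.1.le
      exact sla_mean hβ g U hU hg s x hx.1
        ((Metric.closedBall_subset_closedBall hx.2.le).trans (hball.trans hsub))
  have hD : ∫ x in Ioo 0 r, x * (2 * Real.pi * ‖g s‖ ^ β) = Real.pi * r ^ 2 * ‖g s‖ ^ β := by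
    rw [integral_mul_const, ← integral_Ioc_eq_integral_Ioo,
      ← intervalIntegral.integral_of_le hr.le, integral_id]
    ring
  have hE : Real.pi * r ^ 2 * ‖g s‖ ^ β ≤ ∫ w in rc a' b' B', ‖g w‖ ^ β := by
    rw [← hD]
    exact hC.trans (hB.symm.le.trans hA)
  rw [inv_mul_eq_div, le_div_iff₀ (by positivity)]
  linarith

end Pool.Agent.R313.FN
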