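import Pool.Agent.R313.FN.C
import Pool.Agent.R313.FN.E
import Pool.Agent.R313.SH.Grow
import Pool.Agent.Y753.SHR.Star
import Pool.Agent.Y901.SHR.Diag

set_option autoImplicit false

/-! The landscape of zeta as a random continuous function. -/

namespace Pool.Agent.R313.FN

open Filter MeasureTheory Topology Finset
open Pool.Agent.Y755
open Pool.Agent.Y753.NL
open Pool.Agent.Y753.SHR
open Pool.Agent.Y753.SHL (Nor CL mL Yl za_ae)
open Pool.Agent.H306R2 (aF aF_pos)
open Pool.Agent.R313.SH (land_grow)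

/-- the path -/
noncomputable def pth (δ p q : ℝ) (h : δ < 1 / 2) : C(ℝ, CI) :=
  ContinuousMap.curry ⟨fun y : ℝ × unitInterval => za δ (p + q * y.2) y.1, by
    have h1 : ∀ y : ℝ × unitInterval, za δ (p + q * y.2) y.1 = za δ 0 (y.1 + (p + q * y.2) * δ) := fun y => za_shift _ _ _
    simp_rw [h1]
    exact (za_cont h 0).comp (by fun_prop)⟩

lemma pth_apply (δ p q : ℝ) (h : δ < 1 / 2) (t : ℝ) (x : unitInterval) : pth δ p q h t x = za δ (p + q * x) t := rfl

open Classical in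
/-- the path, extended by zero -/
noncomputable def zp (δ p q t : ℝ) : CI := if h : δ < 1 / 2 then pth δ p q h t else 0

lemma zp_apply {δ : ℝ} (p q : ℝ) (h : δ < 1 / 2) (t : ℝ) (x : unitInterval) : zp δ p q t x = za δ (p + q * x) t := by
  unfold zp
  rw [dif_pos h, pth_apply]

lemma zp_meas {δ : ℝ} (p q : ℝ) (h : δ < 1 / 2) : Measurable (zp δ p q) := by
  have e : zp δ p q = pth δ p q h := by
    funext t
    unfold zp
    rw [dif_pos h]
  rw [e]
  exact (pth δ p q h).continuous.measurable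

lemma mass_full {δ : ℝ → ℝ} (hδ : Tendsto δ atTop (𝓝 0)) (hδL : Tendsto (fun T : ℝ => δ T * Real.log T) atTop atTop)
    {β : ℝ} (hβ : 0 < β) (hβ4 : β ≤ 4) (a : ℝ) :
    Tendsto (fun T : ℝ => (2 * δ T) ^ ((β / 2) ^ 2) / T * ∫ t in Set.Icc 0 T, za (δ T) a t ^ β) atTop (𝓝 (aF (β / 2))) := by
  have h1 := full_R Pool.Agent.Y901.SHR.done Pool.Agent.Y753.SHR.star hδ hδL le_rfl (fun _ : Fin 1 => β / 2) (fun _ => a)
    (fun _ => by positivity) (by simp; linarith)
  have e1 : 2 * (β / 2) = β := by ring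
  simp only [univ_unique, Fin.default_eq_zero, Fin.isValue, sum_const, card_singleton, one_smul, prod_singleton, sub_self,
    zero_div, e1] at h1
  have e2 : (1 + (0:ℝ) ^ 2) ^ (-(β / 2 * (β / 2) / 2)) = 1 := by norm_num
  rw [e2, mul_one] at h1
  exact h1

/-- the landscape on the whole interval, with growth -/
theorem land_four {δ : ℝ → ℝ} (hδ : Tendsto δ atTop (𝓝 0)) (hδL : Tendsto (fun T : ℝ => δ T * Real.log T) atTop atTop)
    {β : ℝ} (hβ : 0 < β) (hβ4 : β ≤ 4) {n : ℕ} (a : Fin n → ℝ) :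
    ∃ ρ : ProbabilityMeasure (Fin n → ℝ), Nor (mL β a) (CL a) ρ ∧ ∀ (F : (Fin n → ℝ) → ℝ) (A : ℝ), Continuous F →
      (∀ y, |F y| ≤ A * (1 + ∑ j, Real.exp (β * y j))) →
      Tendsto (fun T : ℝ => (2 * δ T) ^ ((β / 2) ^ 2) / T * ∫ t in Set.Icc 0 T, za (δ T) 0 t ^ β * F (Yl (δ T) a t)) atTop
        (𝓝 (aF (β / 2) * ∫ y, F y ∂(ρ : Measure (Fin n → ℝ)))) := by
  refine land_grow hδ hδL (fun T => ⟨measurableSet_Icc, subset_rfl⟩) hβ a (fun κ _ hκ0 hκs => ?_)
    (mass_full hδ hδL hβ hβ4 0) (fun j => mass_full hδ hδL hβ hβ4 (a j))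
  have h1 := full_R Pool.Agent.Y901.SHR.done Pool.Agent.Y753.SHR.star hδ hδL (Nat.le_add_left 1 n) κ
    (Fin.cons 0 a : Fin (n + 1) → ℝ) hκ0 (by rw [hκs]; linarith)
  rw [hκs] at h1
  exact h1

/-- the functional limit theorem -/
theorem path_main {δ : ℝ → ℝ} (hδ : Tendsto δ atTop (𝓝 0)) (hδL : Tendsto (fun T : ℝ => δ T * Real.log T) atTop atTop)
    {β : ℝ} (hβ : 0 < β) (hβ4 : β ≤ 4) (p q : ℝ) :
    ∃ ν : ProbabilityMeasure CI, (∀ (n : ℕ) (x : Fin n → unitInterval), ∃ ρ : ProbabilityMeasure (Fin n → ℝ),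
        Nor (mL β fun j => p + q * x j) (CL fun j => p + q * x j) ρ ∧
        (ν : Measure CI).map (fun f j => f (x j)) = (ρ : Measure (Fin n → ℝ)).map (fun y j => Real.exp (y j))) ∧
      Integrable (fun f : CI => ‖f‖ ^ β) (ν : Measure CI) ∧
      (∀ (F : CI → ℝ) (A : ℝ), Continuous F → (∀ f, |F f| ≤ A * (1 + ‖f‖ ^ β)) →
      Tendsto (fun T => (2 * δ T) ^ ((β / 2) ^ 2) / T * ∫ t in Set.Icc 0 T, za (δ T) 0 t ^ β * F ((za (δ T) 0 t)⁻¹ • zp (δ T) p q t))
        atTop (𝓝 (aF (β / 2) * ∫ f, F f ∂(ν : Measure CI)))) ∧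
      Tendsto (fun T => (2 * δ T) ^ ((β / 2) ^ 2) / T * ∫ t in Set.Icc 0 T, ‖zp (δ T) p q t‖ ^ β)
        atTop (𝓝 (aF (β / 2) * ∫ f, ‖f‖ ^ β ∂(ν : Measure CI))) := by
  obtain ⟨B, hB⟩ : ∃ B, B = |p| + |q| := ⟨_, rfl⟩
  have hB0 : 0 ≤ B := by rw [hB]; positivity
  obtain ⟨κ, hκ, hlip⟩ := lipK hβ B
  obtain ⟨C, hC⟩ := Ia_mass hβ hβ4 (B + 1) hδ hδL
  obtain ⟨κ', hκ'⟩ : ∃ κ', κ' = κ * (1 + |q|) := ⟨_, rfl⟩
  have hκ'0 : 0 < κ' := by rw [hκ']; positivity
  have hpos : ∀ᶠ T in atTop, 0 < δ T := by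
    filter_upwards [hδL.eventually_gt_atTop 0, eventually_gt_atTop 1] with T hT hT1
    exact (pos_iff_pos_of_mul_pos hT).mpr (Real.log_pos hT1)
  have hsm : ∀ᶠ T in atTop, δ T < 1 / 16 := hδ.eventually (gt_mem_nhds (by norm_num))
  have hKp : ∀ T t : ℝ, (κ' * (Ia β (δ T) (B + 1) t) ^ (1 / β)) ^ β = κ' ^ β * Ia β (δ T) (B + 1) t := by
    intro T t
    rw [Real.mul_rpow hκ'0.le (Real.rpow_nonneg (Ia_nonneg _ _ _ _) _), ← Real.rpow_mul (Ia_nonneg _ _ _ _),
      one_div_mul_cancel hβ.ne', Real.rpow_one]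
  obtain ⟨ν, h1, h2, h3⟩ := fmain (z := fun T t => zp (δ T) p q t) (z0 := fun T t => za (δ T) 0 t)
    (K := fun T t => κ' * (Ia β (δ T) (B + 1) t) ^ (1 / β)) (w := fun T => (2 * δ T) ^ ((β / 2) ^ 2) / T)
    (ms := fun T => volume.restrict (Set.Icc 0 T)) (β := β) (c := aF (β / 2)) (C := κ' ^ β * C) hβ (aF_pos (by positivity)) (by
      filter_upwards [hpos, eventually_gt_atTop 0] with T h1 h2
      positivity) (by
      filter_upwards [hsm] with T h1
      exact zp_meas p q (by linarith)) (by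
      filter_upwards [hsm] with T h1
      exact ⟨(za_cont (by linarith) 0).measurable, fun t => za_nonneg _ _ _⟩)
    (Eventually.of_forall fun T => ae_restrict_of_ae (za_ae (δ T) 0)) (by
      filter_upwards [hpos, hsm, hC, eventually_gt_atTop 0] with T h1 h2 h3 h4
      obtain ⟨f1, -, -⟩ := Ia_fub (β := β) (δ := δ T) (Q := B + 1) (T := T) hβ h1 h2.le
      have hL := fun t : ℝ => hlip (gz (δ T) t) UU UU_open (rc_UU _) (gz_diff h1 h2.le)
      have hmem : ∀ x : unitInterval, (1 + ((p + q * x : ℝ) : ℂ) * Complex.I : ℂ) ∈ rc 1 1 B := by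
        intro x
        have hx0 : 0 ≤ (x : ℝ) := x.2.1
        have hx1 : (x : ℝ) ≤ 1 := x.2.2
        refine ⟨by simp, by simp, ?_⟩
        have e1 : (1 + ((p + q * x : ℝ) : ℂ) * Complex.I : ℂ).im = p + q * x := by simp
        rw [e1, hB]
        refine (abs_add_le _ _).trans ?_
        rw [abs_mul, abs_of_nonneg hx0]
        have := mul_le_mul_of_nonneg_left hx1 (abs_nonneg q)
        linarith
      refine ⟨Eventually.of_forall fun t => ⟨fun x => ?_, fun x y => ?_⟩, fun t => ?_, ?_, ?_⟩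
      · rw [zp_apply p q (by linarith), abs_of_nonneg (za_nonneg _ _ _), za_gz]
        refine ((hL t).1 _ (hmem x)).trans ?_
        refine mul_le_mul_of_nonneg_right ?_ (Real.rpow_nonneg (Ia_nonneg _ _ _ _) _)
        rw [hκ']
        nlinarith [abs_nonneg q]
      · rw [zp_apply p q (by linarith), zp_apply p q (by linarith), za_gz, za_gz]
        refine (abs_norm_sub_norm_le _ _).trans (((hL t).2 _ (hmem x) _ (hmem y)).trans ?_)
        have e2 : ‖(1 + ((p + q * x : ℝ) : ℂ) * Complex.I : ℂ) - (1 + ((p + q * y : ℝ) : ℂ) * Complex.I)‖ = |q| * dist x y := by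
          have e3 : (1 + ((p + q * x : ℝ) : ℂ) * Complex.I : ℂ) - (1 + ((p + q * y : ℝ) : ℂ) * Complex.I) =
            ((q * ((x:ℝ) - y) : ℝ) : ℂ) * Complex.I := by push_cast; ring
          rw [e3, norm_mul, Complex.norm_I, mul_one, Complex.norm_real, Real.norm_eq_abs, abs_mul, Subtype.dist_eq, Real.dist_eq]
        rw [e2, hκ']
        have h5 : 0 ≤ κ * Ia β (δ T) (B + 1) t ^ (1 / β) := mul_nonneg hκ.le (Real.rpow_nonneg (Ia_nonneg _ _ _ _) _)
        have h6 : 0 ≤ dist x y := dist_nonneg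
        have h7 := mul_nonneg h5 h6
        show κ * Ia β (δ T) (B + 1) t ^ (1 / β) * (|q| * dist x y) ≤ κ * (1 + |q|) * Ia β (δ T) (B + 1) t ^ (1 / β) * dist x y
        nlinarith
      · exact mul_nonneg hκ'0.le (Real.rpow_nonneg (Ia_nonneg _ _ _ _) _)
      · simp_rw [hKp]
        exact f1.const_mul _
      · simp_rw [hKp]
        rw [integral_const_mul]
        have h5 : 0 ≤ κ' ^ β := by positivity
        have h6 := mul_le_mul_of_nonneg_left h3 h5
        refine le_trans (le_of_eq ?_) h6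
        ring) (by
      filter_upwards [hsm] with T h1
      exact (((za_cont (by linarith) 0).rpow_const fun _ => Or.inr hβ.le).continuousOn.integrableOn_compact isCompact_Icc))
    (mass_full hδ hδL hβ hβ4 0)
    (P := fun n x ρ' => ∃ ρ : ProbabilityMeasure (Fin n → ℝ), Nor (mL β fun j => p + q * x j) (CL fun j => p + q * x j) ρ ∧
      (ρ' : Measure (Fin n → ℝ)) = (ρ : Measure (Fin n → ℝ)).map (fun y j => Real.exp (y j))) (by
      intro n x
      obtain ⟨ρ, hρ, hF⟩ := land_four hδ hδL hβ hβ4 (fun j => p + q * x j)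
      have hexpc : Continuous fun (y : Fin n → ℝ) j => Real.exp (y j) := by fun_prop
      refine ⟨ρ.map hexpc.measurable.aemeasurable, ⟨ρ, hρ, rfl⟩, fun F A hFc hFA => ?_⟩
      have h1 := hF (fun y => F (fun j => Real.exp (y j))) A (hFc.comp hexpc) (fun y => by
        refine (hFA _).trans (le_of_eq ?_)
        congr 2
        refine sum_congr rfl fun j _ => ?_
        rw [abs_of_pos (Real.exp_pos _), ← Real.exp_mul, mul_comm])
      have e1 : ∫ y, F y ∂((ρ.map hexpc.measurable.aemeasurable : ProbabilityMeasure (Fin n → ℝ)) : Measure (Fin n → ℝ)) =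
          ∫ y, F (fun j => Real.exp (y j)) ∂(ρ : Measure (Fin n → ℝ)) :=
        integral_map hexpc.measurable.aemeasurable hFc.aestronglyMeasurable
      rw [e1]
      refine h1.congr' ?_
      filter_upwards [hsm] with T hT
      congr 1
      refine integral_congr_ae (ae_restrict_of_ae ?_)
      filter_upwards [za_ae (δ T) 0, ae_all_iff.mpr fun j => za_ae (δ T) (p + q * x j)] with t g1 g2
      congr 2
      funext j
      rw [zp_apply p q (by linarith)]
      unfold Yl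
      rw [Real.exp_sub, Real.exp_log (g2 j), Real.exp_log g1, div_eq_inv_mul])
  have hn : Integrable (fun f : CI => ‖f‖ ^ β) (ν : Measure CI) := by
    have h5 := h2.sub (integrable_const (1:ℝ))
    refine h5.congr (Eventually.of_forall fun f => ?_)
    show gs β f - 1 = ‖f‖ ^ β
    unfold gs
    ring
  refine ⟨ν, fun n x => ?_, hn, h3, ?_⟩
  · obtain ⟨ρ', ⟨ρ, g1, g2⟩, g3⟩ := h1 n x
    exact ⟨ρ, g1, g3.trans g2⟩
  · have h4 := h3 (fun f => ‖f‖ ^ β) 1 (continuous_norm.rpow_const fun _ => Or.inr hβ.le) (fun f => by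
      rw [abs_of_nonneg (by positivity)]
      linarith)
    refine h4.congr fun T => ?_
    congr 1
    refine integral_congr_ae (ae_restrict_of_ae ?_)
    filter_upwards [za_ae (δ T) 0] with t ht
    rw [norm_smul, norm_inv, Real.norm_of_nonneg ht.le, Real.mul_rpow (by positivity) (norm_nonneg _), ← mul_assoc,
      Real.inv_rpow ht.le, mul_inv_cancel₀ (Real.rpow_pos_of_pos ht _).ne', one_mul]

end Pool.Agent.R313.FN
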